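import Pool.Agent.Q227.DS.Sound

/-!
# From an assignment to a walk
-/

set_option autoImplicit false

namespace Pool.Agent.Q227.DS

variable {m M : ℕ} {pos neg : ℕ → ℕ → Bool}

/-- The leaf visited in slot `p` of gadget `g`. -/
def U (x : ℕ → ℕ) (g p : ℕ) : Cd :=
  if x p = g then (2, p, 0) else (3, p, if g < x p then g else g - 1)

/-- The walk inside gadget `g`. -/
def loc (m : ℕ) (t : ℕ → Bool) (x : ℕ → ℕ) (g r : ℕ) : Option Cd :=
  if t g = true then
    (if r = 0 then none else if r = 1 then some (1, g, 0) else
      if r ≤ 2 * m + 1 then (if r % 2 = 0 then none else some (U x g ((r - 3) / 2))) else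
      if r = 2 * m + 2 then none else if r ≤ 2 * m + 4 then some (4, g, 0) else
      if r = 2 * m + 5 then none else some (0, g, 0))
  else
    (if r = 0 then none else if r ≤ 2 then some (4, g, 0) else
      if r ≤ 2 * m + 2 then (if r % 2 = 1 then none else some (U x g ((r - 4) / 2))) else
      if r = 2 * m + 3 then none else if r = 2 * m + 4 then some (1, g, 0) else
      if r = 2 * m + 5 then none else some (0, g, 0))

/-- The walk. -/
def wlk (m M : ℕ) (t : ℕ → Bool) (x : ℕ → ℕ) (τ : ℕ) : Option Cd :=
  if τ < M * (2 * m + 7) then loc m t x (τ / (2 * m + 7)) (τ % (2 * m + 7)) else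
  if τ = M * (2 * m + 7) then none else some (4, M, 0)

theorem wlk_eq {t : ℕ → Bool} {x : ℕ → ℕ} {g r : ℕ} (hg : g < M) (hr : r < 2 * m + 7) :
    wlk m M t x (g * (2 * m + 7) + r) = loc m t x g r := by
  unfold wlk
  rw [if_pos (mul_lt hg hr), (divmod hr).1, (divmod hr).2]

theorem loc_zero {t : ℕ → Bool} {x : ℕ → ℕ} {g : ℕ} : loc m t x g 0 = none := by
  unfold loc
  split <;> rfl

theorem wlk_base {t : ℕ → Bool} {x : ℕ → ℕ} {g : ℕ} (hg : g ≤ M) :
    wlk m M t x (g * (2 * m + 7)) = none := by
  rcases Nat.lt_or_ge g M with h | h
  · have := wlk_eq (m := m) (t := t) (x := x) (r := 0) h (by omega)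
    rw [Nat.add_zero] at this
    rw [this, loc_zero]
  · have : g = M := by omega
    subst this
    unfold wlk
    rw [if_neg (by omega), if_pos rfl]

/-- The chosen gadgets are correct. -/
def Good (pos neg : ℕ → ℕ → Bool) (t : ℕ → Bool) (x : ℕ → ℕ) (m : ℕ) : Prop :=
  ∀ j < m, (pos j (x j) = true ∧ t (x j) = true) ∨
    (pos j (x j) = false ∧ neg j (x j) = true ∧ t (x j) = false)

theorem pres_fil {j q g r : ℕ} (h0 : r ≠ 0) (hr : r < 2 * m + 4) :
    pres m pos neg (3, j, q) (g * (2 * m + 7) + r) = true := by
  have := divmod (m := m) (g := g) (r := r) (by omega)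
  simp only [pres, this.2]
  simp
  omega

theorem pres_U_true {t : ℕ → Bool} {x : ℕ → ℕ} (hG : Good pos neg t x m) {g p r : ℕ} (hp : p < m)
    (ht : t g = true) (hr : r = 2 * p + 2 ∨ r = 2 * p + 3) :
    pres m pos neg (U x g p) (g * (2 * m + 7) + r) = true := by
  unfold U
  by_cases h : x p = g
  · rw [if_pos h]
    have hG := hG p hp
    rw [h] at hG
    rcases hG with hG | hG
    · rw [pres_cla (by omega)]
      unfold cla
      rw [if_pos hG.1]
      simp only [Bool.or_eq_true, Bool.and_eq_true, decide_eq_true_eq]
      omega
    · rw [ht] at hG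
      exact absurd hG.2.2 (by simp)
  · rw [if_neg h]
    exact pres_fil (by omega) (by omega)

theorem pres_U_false {t : ℕ → Bool} {x : ℕ → ℕ} (hG : Good pos neg t x m) {g p r : ℕ} (hp : p < m)
    (ht : t g = false) (hr : r = 2 * p + 3 ∨ r = 2 * p + 4) :
    pres m pos neg (U x g p) (g * (2 * m + 7) + r) = true := by
  unfold U
  by_cases h : x p = g
  · rw [if_pos h]
    have hG := hG p hp
    rw [h] at hG
    rcases hG with hG | hG
    · rw [ht] at hG
      exact absurd hG.2 (by simp)
    · rw [pres_cla (by omega)]
      unfold cla
      rw [if_neg (by rw [hG.1]; simp), if_pos hG.2.1]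
      simp only [Bool.or_eq_true, Bool.and_eq_true, decide_eq_true_eq]
      omega
  · rw [if_neg h]
    exact pres_fil (by omega) (by omega)

theorem pres_che {g r : ℕ} (hr : r % 2 = 0) :
    pres m pos neg (4, g, 0) (g * (2 * m + 7) + r) = true := by
  have := par m g
  simp only [pres]
  simp
  omega

theorem pres_anc {g r : ℕ} (hr : r = 2 * m + 5 ∨ r = 2 * m + 6) :
    pres m pos neg (0, g, 0) (g * (2 * m + 7) + r) = true := by
  simp only [pres, if_true, anc, Bool.or_eq_true, Bool.and_eq_true, decide_eq_true_eq]
  omega

theorem pres_gua {g r : ℕ} (hr : r = 0 ∨ r = 1 ∨ r = 2 * m + 3 ∨ r = 2 * m + 4) :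
    pres m pos neg (1, g, 0) (g * (2 * m + 7) + r) = true := by
  simp only [pres, one_ne_zero, if_false, if_true, gua, Bool.or_eq_true, Bool.and_eq_true,
    decide_eq_true_eq]
  omega

theorem step_enter {pr : Cd → ℕ → Bool} {w : ℕ → Option Cd} {τ : ℕ} {c : Cd} (h1 : w τ = none)
    (h2 : w (τ + 1) = some c) (h3 : pr c τ = true) : Step pr w τ :=
  Or.inr (Or.inl ⟨c, h1, h2, h3⟩)

theorem step_exit {pr : Cd → ℕ → Bool} {w : ℕ → Option Cd} {τ : ℕ} {c : Cd} (h1 : w τ = some c)
    (h2 : w (τ + 1) = none) (h3 : pr c τ = true) : Step pr w τ :=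
  Or.inr (Or.inr ⟨c, h1, h2, h3⟩)

theorem wlk_step {t : ℕ → Bool} {x : ℕ → ℕ} (hm : 0 < m) (hG : Good pos neg t x m) {τ : ℕ}
    (hτ : τ < M * (2 * m + 7) + 1) : Step (pres m pos neg) (wlk m M t x) τ := by
  rcases Nat.eq_or_lt_of_le (Nat.le_of_lt_succ hτ) with h | h
  · subst h
    refine step_enter (c := (4, M, 0)) (wlk_base le_rfl) ?_ ?_
    · unfold wlk
      rw [if_neg (by omega), if_neg (by omega)]
    · have := pres_che (m := m) (pos := pos) (neg := neg) (g := M) (r := 0) rfl
      simpa using this
  obtain ⟨g, r, hr, rfl⟩ := decomp m τ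
  have hg : g < M := by
    by_contra hge
    have : M * (2 * m + 7) ≤ g * (2 * m + 7) := Nat.mul_le_mul_right _ (by omega)
    omega
  have e1 := wlk_eq (m := m) (t := t) (x := x) hg hr
  rcases Nat.lt_or_ge (r + 1) (2 * m + 7) with hr1 | hr1
  · have e2 := wlk_eq (m := m) (t := t) (x := x) hg hr1
    rw [← Nat.add_assoc] at e2
    rcases htg : t g with _ | _
    · -- false mode
      have ht' : ¬ t g = true := by rw [htg]; simp
      unfold loc at e1 e2
      rw [if_neg ht'] at e1 e2
      rcases Nat.lt_or_ge r 3 with h3 | h3
      · interval_cases r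
        · rw [if_pos rfl] at e1
          rw [if_neg (by omega), if_pos (by omega)] at e2
          exact step_enter e1 e2 (pres_che rfl)
        · rw [if_neg (by omega), if_pos (by omega)] at e1 e2
          exact Or.inl (e2.trans e1.symm)
        · rw [if_neg (by omega), if_pos (by omega)] at e1
          rw [if_neg (by omega), if_neg (by omega), if_pos (by omega), if_pos (by omega)] at e2
          exact step_exit e1 e2 (pres_che rfl)
      · rw [if_neg (by omega), if_neg (by omega)] at e1 e2
        rcases Nat.lt_or_ge r (2 * m + 2) with h4 | h4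
        · rw [if_pos (by omega)] at e1 e2
          by_cases hpar : r % 2 = 1
          · rw [if_pos hpar] at e1
            rw [if_neg (by omega)] at e2
            exact step_enter e1 e2 (pres_U_false hG (by omega) htg (by omega))
          · rw [if_neg hpar] at e1
            rw [if_pos (by omega)] at e2
            exact step_exit e1 e2 (pres_U_false hG (by omega) htg (by omega))
        · have h5 : r = 2 * m + 2 ∨ r = 2 * m + 3 ∨ r = 2 * m + 4 ∨ r = 2 * m + 5 := by omega
          rcases h5 with rfl | rfl | rfl | rfl
          · rw [if_pos (by omega), if_neg (by omega)] at e1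
            rw [if_neg (by omega), if_pos (by omega)] at e2
            exact step_exit e1 e2 (pres_U_false hG (by omega) htg (by omega))
          · rw [if_neg (by omega), if_pos rfl] at e1
            rw [if_neg (by omega), if_neg (by omega), if_pos (by omega)] at e2
            exact step_enter e1 e2 (pres_gua (by omega))
          · rw [if_neg (by omega), if_neg (by omega), if_pos rfl] at e1
            rw [if_neg (by omega), if_neg (by omega), if_neg (by omega), if_pos (by omega)] at e2
            exact step_exit e1 e2 (pres_gua (by omega))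
          · rw [if_neg (by omega), if_neg (by omega), if_neg (by omega), if_pos rfl] at e1
            rw [if_neg (by omega), if_neg (by omega), if_neg (by omega), if_neg (by omega)] at e2
            exact step_enter e1 e2 (pres_anc (by omega))
    · -- true mode
      unfold loc at e1 e2
      rw [if_pos htg] at e1 e2
      rcases Nat.lt_or_ge r 2 with h3 | h3
      · interval_cases r
        · rw [if_pos rfl] at e1
          rw [if_neg (by omega), if_pos (by omega)] at e2
          exact step_enter e1 e2 (pres_gua (by omega))
        · rw [if_neg (by omega), if_pos rfl] at e1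
          rw [if_neg (by omega), if_neg (by omega), if_pos (by omega), if_pos (by omega)] at e2
          exact step_exit e1 e2 (pres_gua (by omega))
      · rw [if_neg (by omega), if_neg (by omega)] at e1 e2
        rcases Nat.lt_or_ge r (2 * m + 1) with h4 | h4
        · rw [if_pos (by omega)] at e1 e2
          by_cases hpar : r % 2 = 0
          · rw [if_pos hpar] at e1
            rw [if_neg (by omega)] at e2
            exact step_enter e1 e2 (pres_U_true hG (by omega) htg (by omega))
          · rw [if_neg hpar] at e1
            rw [if_pos (by omega)] at e2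
            exact step_exit e1 e2 (pres_U_true hG (by omega) htg (by omega))
        · have h5 : r = 2 * m + 1 ∨ r = 2 * m + 2 ∨ r = 2 * m + 3 ∨ r = 2 * m + 4 ∨
            r = 2 * m + 5 := by omega
          rcases h5 with rfl | rfl | rfl | rfl | rfl
          · rw [if_pos (by omega), if_neg (by omega)] at e1
            rw [if_neg (by omega), if_pos (by omega)] at e2
            exact step_exit e1 e2 (pres_U_true hG (by omega) htg (by omega))
          · rw [if_neg (by omega), if_pos rfl] at e1
            rw [if_neg (by omega), if_neg (by omega), if_pos (by omega)] at e2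
            exact step_enter e1 e2 (pres_che (by omega))
          · rw [if_neg (by omega), if_neg (by omega), if_pos (by omega)] at e1
            rw [if_neg (by omega), if_neg (by omega), if_pos (by omega)] at e2
            exact Or.inl (e2.trans e1.symm)
          · rw [if_neg (by omega), if_neg (by omega), if_pos (by omega)] at e1
            rw [if_neg (by omega), if_neg (by omega), if_neg (by omega), if_pos (by omega)] at e2
            exact step_exit e1 e2 (pres_che (by omega))
          · rw [if_neg (by omega), if_neg (by omega), if_neg (by omega), if_pos rfl] at e1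
            rw [if_neg (by omega), if_neg (by omega), if_neg (by omega), if_neg (by omega)] at e2
            exact step_enter e1 e2 (pres_anc (by omega))
  · have : r = 2 * m + 6 := by omega
    subst this
    have e3 : g * (2 * m + 7) + (2 * m + 6) + 1 = (g + 1) * (2 * m + 7) := by ring
    refine step_exit (c := (0, g, 0)) ?_ ?_ (pres_anc (by omega))
    · rw [e1]
      unfold loc
      rcases htg : t g with _ | _
      · rw [if_neg (by simp), if_neg (by omega), if_neg (by omega), if_neg (by omega),
          if_neg (by omega), if_neg (by omega), if_neg (by omega)]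
      · rw [if_pos rfl, if_neg (by omega), if_neg (by omega), if_neg (by omega),
          if_neg (by omega), if_neg (by omega), if_neg (by omega)]
    · rw [e3]
      exact wlk_base (by omega)

theorem complete {t : ℕ → Bool} {x : ℕ → ℕ} (hm : 0 < m) (hx : ∀ j < m, x j < M)
    (hG : Good pos neg t x m) : CoverC (KL m M) (pres m pos neg) (M * (2 * m + 7) + 1) := by
  refine ⟨wlk m M t x, ?_, fun τ hτ => wlk_step hm hG hτ, ?_⟩
  · have := wlk_base (m := m) (M := M) (t := t) (x := x) (g := 0) (Nat.zero_le _)
    rwa [Nat.zero_mul] at this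
  have hU : ∀ g < M, ∀ p < m, ∃ τ ≤ M * (2 * m + 7) + 1, wlk m M t x τ = some (U x g p) := by
    intro g hg p hp
    rcases htg : t g with _ | _
    · have hlt := mul_lt (m := m) (r := 2 * p + 4) hg (by omega)
      refine ⟨g * (2 * m + 7) + (2 * p + 4), by omega, ?_⟩
      rw [wlk_eq hg (by omega)]
      unfold loc
      rw [if_neg (by rw [htg]; simp), if_neg (by omega), if_neg (by omega), if_pos (by omega),
        if_neg (by omega), show (2 * p + 4 - 4) / 2 = p by omega]
    · have hlt := mul_lt (m := m) (r := 2 * p + 3) hg (by omega)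
      refine ⟨g * (2 * m + 7) + (2 * p + 3), by omega, ?_⟩
      rw [wlk_eq hg (by omega)]
      unfold loc
      rw [if_pos htg, if_neg (by omega), if_neg (by omega), if_pos (by omega),
        if_neg (by omega), show (2 * p + 3 - 3) / 2 = p by omega]
  intro c hc
  rw [mem_KL] at hc
  rcases hc with ⟨g, hg, rfl⟩ | ⟨g, hg, rfl⟩ | ⟨j, hj, rfl⟩ | ⟨j, hj, q, hq, rfl⟩ | ⟨i, hi, rfl⟩
  · have hlt := mul_lt (m := m) (r := 2 * m + 6) hg (by omega)
    refine ⟨g * (2 * m + 7) + (2 * m + 6), by omega, ?_⟩
    rw [wlk_eq hg (by omega)]
    unfold loc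
    rcases htg : t g with _ | _
    · rw [if_neg (by simp), if_neg (by omega), if_neg (by omega), if_neg (by omega),
        if_neg (by omega), if_neg (by omega), if_neg (by omega)]
    · rw [if_pos rfl, if_neg (by omega), if_neg (by omega), if_neg (by omega),
        if_neg (by omega), if_neg (by omega), if_neg (by omega)]
  · rcases htg : t g with _ | _
    · have hlt := mul_lt (m := m) (r := 2 * m + 4) hg (by omega)
      refine ⟨g * (2 * m + 7) + (2 * m + 4), by omega, ?_⟩
      rw [wlk_eq hg (by omega)]
      unfold loc
      rw [if_neg (by rw [htg]; simp), if_neg (by omega), if_neg (by omega), if_neg (by omega),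
        if_neg (by omega), if_pos rfl]
    · have hlt := mul_lt (m := m) (r := 1) hg (by omega)
      refine ⟨g * (2 * m + 7) + 1, by omega, ?_⟩
      rw [wlk_eq hg (by omega)]
      unfold loc
      rw [if_pos htg, if_neg (by omega), if_pos rfl]
  · have := hU (x j) (hx j hj) j hj
    unfold U at this
    rwa [if_pos rfl] at this
  · rcases Nat.lt_or_ge q (x j) with h | h
    · have := hU q (by omega) j hj
      unfold U at this
      rwa [if_neg (by omega), if_pos h] at this
    · have := hU (q + 1) (by omega) j hj
      unfold U at this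
      rwa [if_neg (by omega), if_neg (by omega), Nat.add_sub_cancel] at this
  · rcases Nat.lt_or_ge i M with hi' | hi'
    · rcases htg : t i with _ | _
      · have hlt := mul_lt (m := m) (r := 1) hi' (by omega)
        refine ⟨i * (2 * m + 7) + 1, by omega, ?_⟩
        rw [wlk_eq hi' (by omega)]
        unfold loc
        rw [if_neg (by rw [htg]; simp), if_neg (by omega), if_pos (by omega)]
      · have hlt := mul_lt (m := m) (r := 2 * m + 3) hi' (by omega)
        refine ⟨i * (2 * m + 7) + (2 * m + 3), by omega, ?_⟩
        rw [wlk_eq hi' (by omega)]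
        unfold loc
        rw [if_pos htg, if_neg (by omega), if_neg (by omega), if_neg (by omega),
          if_neg (by omega), if_pos (by omega)]
    · have : i = M := by omega
      subst this
      refine ⟨i * (2 * m + 7) + 1, le_rfl, ?_⟩
      unfold wlk
      rw [if_neg (by omega), if_neg (by omega)]

end Pool.Agent.Q227.DS
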