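import Pool.Agent.Q227.DS.Compl

/-!
# Time-varying stars and their coverage by one agent
-/

set_option autoImplicit false

namespace Pool.Agent.Q227.DS

/-- The entry in row `u` and column `v` of a matrix given by its rows. -/
def ent (A : List (List Bool)) (u v : ℕ) : Bool := (A.getD u []).getD v false

/-- `A` is the adjacency matrix of a simple graph with vertices `0, ..., n - 1`. -/
def IsAdj (n : ℕ) (A : List (List Bool)) : Prop :=
  A.length = n ∧ (∀ row ∈ A, row.length = n) ∧ (∀ u v, ent A u v = ent A v u) ∧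
    ∀ u, ent A u u = false

/-- The graph of an adjacency matrix. -/
def graphOf (A : List (List Bool)) : SimpleGraph (Fin A.length) :=
  SimpleGraph.fromRel fun u v => ent A u.1 v.1 = true

/-- A star: there is a centre such that the edges are exactly the pairs consisting of the centre
and another vertex. -/
def IsStar {V : Type} (G : SimpleGraph V) : Prop :=
  ∃ c, ∀ u v, G.Adj u v ↔ u ≠ v ∧ (u = c ∨ v = c)

/-- The graph which is present at time `τ`: the first graph of the list is present for the first
`t₁` steps from time `0`, then the second graph for the next `t₂` steps, and so on; the last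
graph stays. -/
def snap : List (List (List Bool) × ℕ) → ℕ → List (List Bool)
  | [], _ => []
  | [(A, _)], _ => A
  | (A, d) :: B :: rest, τ => if τ < d then A else snap (B :: rest) (τ - d)

/-- Instances: the adjacency matrix of the graph, the start vertex, the deadline, and the
schedule (adjacency matrices with durations). -/
abbrev Inst : Type := (List (List Bool) × ℕ) × (ℕ × List (List (List Bool) × ℕ))

/-- The instance consists of a star, a start vertex, a deadline and a schedule by subgraphs
satisfying the condition of the class `B_Δ`: every edge is present at some time of every window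
of length `Δ`. -/
def Valid (Δ : ℕ) (I : Inst) : Prop :=
  IsAdj I.1.1.length I.1.1 ∧ IsStar (graphOf I.1.1) ∧ I.1.2 < I.1.1.length ∧
  I.2.2 ≠ [] ∧
  (∀ p ∈ I.2.2, IsAdj I.1.1.length p.1 ∧ (∀ u v, ent p.1 u v = true → ent I.1.1 u v = true) ∧
    0 < p.2) ∧
  ∀ u v, ent I.1.1 u v = true → ∀ τ, ∃ τ', τ ≤ τ' ∧ τ' < τ + Δ ∧ ent (snap I.2.2 τ') u v = true

/-- The agent, starting at the start vertex at time `0`, can visit all the vertices by the
deadline: at each time it waits or crosses an edge which is present at this time. -/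
def Covers (I : Inst) : Prop :=
  ∃ w : ℕ → ℕ, w 0 = I.1.2 ∧
    (∀ τ < I.2.1, w (τ + 1) = w τ ∨ ent (snap I.2.2 τ) (w τ) (w (τ + 1)) = true) ∧
    ∀ v < I.1.1.length, ∃ τ ≤ I.2.1, w τ = v

/-! ### Stars with centre `0` and a list of leaves -/

section mat

variable {C : Type}

/-- The adjacency matrix of the subgraph of the star consisting of the edges to the leaves
satisfying `p`. -/
def mat (K : List C) (p : C → Bool) : List (List Bool) :=
  (false :: K.map p) :: K.map (fun c => p c :: K.map (fun _ => false))

theorem getD_map_false {K : List C} (p : C → Bool) (k : ℕ) :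
    (K.map p).getD k false = true ↔ ∃ c, K[k]? = some c ∧ p c = true := by
  rw [List.getD_eq_getElem?_getD, List.getElem?_map]
  cases K[k]? with
  | none => simp
  | some c => simp

theorem ent_mat {K : List C} {p : C → Bool} {u v : ℕ} : ent (mat K p) u v = true ↔
    (u = 0 ∧ ∃ k c, v = k + 1 ∧ K[k]? = some c ∧ p c = true) ∨
    (v = 0 ∧ ∃ k c, u = k + 1 ∧ K[k]? = some c ∧ p c = true) := by
  unfold ent mat
  rcases u with _ | u
  · rw [List.getD_cons_zero]
    rcases v with _ | v
    · simp
    · rw [List.getD_cons_succ, getD_map_false]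
      constructor
      · rintro ⟨c, h1, h2⟩
        exact Or.inl ⟨rfl, v, c, rfl, h1, h2⟩
      · rintro (⟨-, k, c, h1, h2⟩ | ⟨h1, -⟩)
        · rw [Nat.add_right_cancel h1]
          exact ⟨c, h2⟩
        · omega
  · rw [List.getD_cons_succ,
      List.getD_eq_getElem?_getD (l := K.map (fun c => p c :: K.map (fun _ => false))),
      List.getElem?_map]
    rcases hK : K[u]? with _ | c
    · simp only [Option.map_none, Option.getD_none]
      constructor
      · intro h
        simp at h
      · rintro (⟨h1, -⟩ | ⟨-, k, c, h1, h2, -⟩)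
        · omega
        · rw [← Nat.add_right_cancel h1, hK] at h2
          simp at h2
    · simp only [Option.map_some, Option.getD_some]
      rcases v with _ | v
      · rw [List.getD_cons_zero]
        constructor
        · intro h
          exact Or.inr ⟨rfl, u, c, rfl, hK, h⟩
        · rintro (⟨h1, -⟩ | ⟨-, k, c', h1, h2, h3⟩)
          · omega
          · rw [← Nat.add_right_cancel h1, hK] at h2
            rw [Option.some.inj h2]
            exact h3
      · rw [List.getD_cons_succ, getD_map_false]
        simp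

theorem mat_length (K : List C) (p : C → Bool) : (mat K p).length = K.length + 1 := by
  simp [mat]

theorem isAdj_mat (K : List C) (p : C → Bool) : IsAdj (K.length + 1) (mat K p) := by
  refine ⟨mat_length K p, ?_, ?_, ?_⟩
  · intro row hrow
    unfold mat at hrow
    rw [List.mem_cons, List.mem_map] at hrow
    rcases hrow with rfl | ⟨c, -, rfl⟩
    · simp
    · simp
  · intro u v
    rw [Bool.eq_iff_iff, ent_mat, ent_mat]
    exact or_comm
  · intro u
    rw [← Bool.not_eq_true, ent_mat]
    rintro (⟨h, k, c, h1, -⟩ | ⟨h, k, c, h1, -⟩) <;> omega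

theorem isStar_mat (K : List C) : IsStar (graphOf (mat K fun _ => true)) := by
  have h0 : 0 < (mat K fun _ => true).length := by rw [mat_length]; omega
  have key : ∀ u v : Fin (mat K fun _ => true).length,
      ent (mat K fun _ => true) u.1 v.1 = true ↔ u ≠ v ∧ (u = ⟨0, h0⟩ ∨ v = ⟨0, h0⟩) := by
    rintro ⟨u, hu⟩ ⟨v, hv⟩
    rw [mat_length] at hu hv
    simp only [ent_mat, Fin.mk.injEq, ne_eq]
    constructor
    · rintro (⟨h, k, c, h1, -⟩ | ⟨h, k, c, h1, -⟩)
      · exact ⟨by omega, Or.inl h⟩
      · exact ⟨by omega, Or.inr h⟩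
    · rintro ⟨h, h1 | h1⟩
      · have h2 : v - 1 < K.length := by omega
        exact Or.inl ⟨h1, v - 1, K[v - 1], by omega, List.getElem?_eq_getElem h2, trivial⟩
      · have h2 : u - 1 < K.length := by omega
        exact Or.inr ⟨h1, u - 1, K[u - 1], by omega, List.getElem?_eq_getElem h2, trivial⟩
  refine ⟨⟨0, h0⟩, fun u v => ?_⟩
  unfold graphOf
  rw [SimpleGraph.fromRel_adj, key, key]
  constructor
  · rintro ⟨h1, ⟨-, h2⟩ | ⟨-, h2⟩⟩
    · exact ⟨h1, h2⟩
    · exact ⟨h1, h2.symm⟩
  · rintro ⟨h1, h2⟩
    exact ⟨h1, Or.inl ⟨h1, h2⟩⟩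

/-- The schedule: for `T` steps the edges given by `pr`, then the full star. -/
def sched (K : List C) (pr : C → ℕ → Bool) (T : ℕ) : List (List (List Bool) × ℕ) :=
  (List.range T).map (fun τ => (mat K (fun c => pr c τ), 1)) ++ [(mat K (fun _ => true), 1)]

theorem snap_append {ι : Type} (F : ι → List (List Bool)) (B : List (List Bool)) (l : List ι)
    (τ : ℕ) : snap (l.map (fun a => (F a, 1)) ++ [(B, 1)]) τ = ((l.map F)[τ]?).getD B := by
  induction l generalizing τ with
  | nil => simp [snap]
  | cons a l ih =>
    obtain ⟨p, q, hpq⟩ : ∃ p q, l.map (fun a => (F a, 1)) ++ [(B, 1)] = p :: q := by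
      rcases l with _ | ⟨b, l⟩
      · exact ⟨_, _, rfl⟩
      · exact ⟨_, _, rfl⟩
    have hs : snap ((a :: l).map (fun a => (F a, 1)) ++ [(B, 1)]) τ =
        if τ < 1 then F a else snap (l.map (fun a => (F a, 1)) ++ [(B, 1)]) (τ - 1) := by
      rw [List.map_cons, List.cons_append, hpq]
      rfl
    rw [hs]
    rcases τ with _ | τ
    · simp
    · rw [if_neg (by omega), Nat.add_sub_cancel, ih]
      simp

theorem snap_sched (K : List C) (pr : C → ℕ → Bool) (T τ : ℕ) :
    snap (sched K pr T) τ = if τ < T then mat K (fun c => pr c τ) else mat K (fun _ => true) := by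
  unfold sched
  rw [snap_append (fun τ => mat K (fun c => pr c τ))]
  by_cases h : τ < T
  · rw [if_pos h, List.getElem?_map, List.getElem?_range h]
    rfl
  · rw [if_neg h, List.getElem?_map, List.getElem?_eq_none (by simp; omega)]
    rfl

/-- The instance. -/
def inst (K : List C) (pr : C → ℕ → Bool) (T : ℕ) : Inst :=
  ((mat K (fun _ => true), 0), (T, sched K pr T))

theorem inst_valid {K : List C} {pr : C → ℕ → Bool} {T : ℕ}
    (h2 : ∀ c ∈ K, ∀ τ, pr c τ = true ∨ pr c (τ + 1) = true) {Δ : ℕ} (hΔ : 2 ≤ Δ) :
    Valid Δ (inst K pr T) := by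
  have hl : (mat K (fun _ => true)).length = K.length + 1 := mat_length K _
  refine ⟨?_, isStar_mat K, ?_, ?_, ?_, ?_⟩
  · show IsAdj (mat K (fun _ => true)).length _
    rw [hl]
    exact isAdj_mat K _
  · show 0 < (mat K (fun _ => true)).length
    rw [hl]
    omega
  · show sched K pr T ≠ []
    unfold sched
    simp
  · intro p hp
    show IsAdj (mat K (fun _ => true)).length p.1 ∧ _
    rw [hl]
    have hp' : p ∈ sched K pr T := hp
    unfold sched at hp'
    rw [List.mem_append, List.mem_map, List.mem_singleton] at hp'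
    rcases hp' with ⟨τ, -, rfl⟩ | rfl
    · refine ⟨isAdj_mat K _, ?_, Nat.one_pos⟩
      intro u v
      show ent (mat K _) u v = true → ent (mat K (fun _ => true)) u v = true
      rw [ent_mat, ent_mat]
      rintro (⟨h, k, c, h1, h2, -⟩ | ⟨h, k, c, h1, h2, -⟩)
      · exact Or.inl ⟨h, k, c, h1, h2, rfl⟩
      · exact Or.inr ⟨h, k, c, h1, h2, rfl⟩
    · exact ⟨isAdj_mat K _, fun u v h => h, Nat.one_pos⟩
  · intro u v h τ
    have h' : ent (mat K (fun _ => true)) u v = true := h
    have hkey : ∀ (c : C) (k : ℕ), K[k]? = some c → ((u = 0 ∧ v = k + 1) ∨ (v = 0 ∧ u = k + 1)) →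
        ∃ τ', τ ≤ τ' ∧ τ' < τ + Δ ∧ ent (snap (sched K pr T) τ') u v = true := by
      intro c k hc huv
      have hcK : c ∈ K := List.mem_of_getElem? hc
      have hent : ∀ p : C → Bool, p c = true → ent (mat K p) u v = true := by
        intro p hp
        rw [ent_mat]
        rcases huv with ⟨h1, h3⟩ | ⟨h1, h3⟩
        · exact Or.inl ⟨h1, k, c, h3, hc, hp⟩
        · exact Or.inr ⟨h1, k, c, h3, hc, hp⟩
      rcases h2 c hcK τ with h3 | h3
      · refine ⟨τ, le_rfl, by omega, ?_⟩
        rw [snap_sched]
        split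
        · exact hent _ h3
        · exact hent _ rfl
      · refine ⟨τ + 1, by omega, by omega, ?_⟩
        rw [snap_sched]
        split
        · exact hent _ h3
        · exact hent _ rfl
    rw [ent_mat] at h'
    rcases h' with ⟨h1, k, c, h3, h4, -⟩ | ⟨h1, k, c, h3, h4, -⟩
    · exact hkey c k h4 (Or.inl ⟨h1, h3⟩)
    · exact hkey c k h4 (Or.inr ⟨h1, h3⟩)

end mat

/-- Coverage of the constructed instance, in terms of the leaves. -/
theorem covers_iff {K : List Cd} (hK : K.Nodup) {pr : Cd → ℕ → Bool} {T : ℕ} :
    Covers (inst K pr T) ↔ CoverC K pr T := by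
  have hl : (mat K (fun _ => true)).length = K.length + 1 := mat_length K _
  constructor
  · rintro ⟨w, h0, hst, hv⟩
    have h0' : w 0 = 0 := h0
    have hst' : ∀ τ < T, w (τ + 1) = w τ ∨
        ent (mat K (fun c => pr c τ)) (w τ) (w (τ + 1)) = true := by
      intro τ hτ
      have := hst τ hτ
      change w (τ + 1) = w τ ∨ ent (snap (sched K pr T) τ) (w τ) (w (τ + 1)) = true at this
      rwa [snap_sched, if_pos hτ] at this
    refine ⟨fun τ => if w τ = 0 then none else K[w τ - 1]?, if_pos h0', ?_, ?_⟩
    · intro τ hτ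
      rcases hst' τ hτ with h | h
      · left
        simp only [h]
      · rw [ent_mat] at h
        rcases h with ⟨h1, k, c, h3, h4, h5⟩ | ⟨h1, k, c, h3, h4, h5⟩
        · refine Or.inr (Or.inl ⟨c, if_pos h1, ?_, h5⟩)
          show (if w (τ + 1) = 0 then none else K[w (τ + 1) - 1]?) = some c
          rw [h3, if_neg (by omega), Nat.add_sub_cancel, h4]
        · refine Or.inr (Or.inr ⟨c, ?_, if_pos h1, h5⟩)
          show (if w τ = 0 then none else K[w τ - 1]?) = some c
          rw [h3, if_neg (by omega), Nat.add_sub_cancel, h4]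
    · intro c hc
      obtain ⟨k, hk, hkc⟩ := List.mem_iff_getElem.1 hc
      obtain ⟨τ, hτ, hwτ⟩ := hv (k + 1) (by
        show k + 1 < (mat K (fun _ => true)).length
        rw [hl]
        omega)
      refine ⟨τ, hτ, ?_⟩
      show (if w τ = 0 then none else K[w τ - 1]?) = some c
      rw [hwτ, if_neg (by omega), Nat.add_sub_cancel, List.getElem?_eq_getElem hk, hkc]
  · rintro ⟨w, h0, hst, hv⟩
    -- leaves outside `K` are never needed: restrict the walk
    let w' : ℕ → ℕ := fun τ => (w τ).elim 0 (fun c => if c ∈ K then K.idxOf c + 1 else 0)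
    have hw'n : ∀ τ, w τ = none → w' τ = 0 := by
      intro τ h
      show (w τ).elim 0 _ = 0
      rw [h]
      rfl
    have hw's : ∀ τ c, w τ = some c → w' τ = if c ∈ K then K.idxOf c + 1 else 0 := by
      intro τ c h
      show (w τ).elim 0 _ = _
      rw [h]
      rfl
    have hent : ∀ (τ : ℕ) (c : Cd), c ∈ K → pr c τ = true →
        ent (mat K (fun c => pr c τ)) 0 (K.idxOf c + 1) = true ∧
        ent (mat K (fun c => pr c τ)) (K.idxOf c + 1) 0 = true := by
      intro τ c hc hp
      have hi : K[K.idxOf c]? = some c := by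
        rw [List.getElem?_eq_getElem (List.idxOf_lt_length_of_mem hc), List.getElem_idxOf]
      exact ⟨ent_mat.2 (Or.inl ⟨rfl, _, c, rfl, hi, hp⟩),
        ent_mat.2 (Or.inr ⟨rfl, _, c, rfl, hi, hp⟩)⟩
    refine ⟨w', hw'n 0 h0, ?_, ?_⟩
    · intro τ hτ
      show w' (τ + 1) = w' τ ∨ ent (snap (sched K pr T) τ) (w' τ) (w' (τ + 1)) = true
      rw [snap_sched, if_pos (show τ < T from hτ)]
      rcases hst τ hτ with h | ⟨c, h1, h2, h3⟩ | ⟨c, h1, h2, h3⟩
      · left
        show (w (τ + 1)).elim 0 _ = (w τ).elim 0 _
        rw [h]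
      · rw [hw'n τ h1, hw's _ c h2]
        by_cases hc : c ∈ K
        · right
          rw [if_pos hc]
          exact (hent τ c hc h3).1
        · left
          rw [if_neg hc]
      · rw [hw's _ c h1, hw'n _ h2]
        by_cases hc : c ∈ K
        · right
          rw [if_pos hc]
          exact (hent τ c hc h3).2
        · left
          rw [if_neg hc]
    · intro v hvn
      have hvn' : v < K.length + 1 := by
        have h : v < (mat K (fun _ => true)).length := hvn
        rwa [hl] at h
      rcases v with _ | k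
      · exact ⟨0, Nat.zero_le _, hw'n 0 h0⟩
      · have hk : k < K.length := by omega
        obtain ⟨τ, hτ, hwτ⟩ := hv K[k] (List.getElem_mem hk)
        refine ⟨τ, hτ, ?_⟩
        rw [hw's _ _ hwτ, if_pos (List.getElem_mem hk), hK.idxOf_getElem k hk]

end Pool.Agent.Q227.DS
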