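import Pool.Agent.Q227.DS.Tile

/-!
# The leaves of the constructed star and their schedules
-/

set_option autoImplicit false

namespace Pool.Agent.Q227.DS

/-- Names of leaves. -/
abbrev Cd : Type := ℕ × ℕ × ℕ

/-- The anchor of gadget `g`. -/
def anc (m g τ : ℕ) : Bool :=
  (decide (τ ≤ g * (2 * m + 7) + 2 * m + 5) &&
    decide (τ % 2 = (g * (2 * m + 7) + 2 * m + 5) % 2)) ||
  (decide (g * (2 * m + 7) + 2 * m + 6 ≤ τ) &&
    decide (τ % 2 = (g * (2 * m + 7) + 2 * m + 6) % 2))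

/-- The guard of gadget `g`. -/
def gua (m g τ : ℕ) : Bool :=
  (decide (τ ≤ g * (2 * m + 7)) && decide (τ % 2 = (g * (2 * m + 7)) % 2)) ||
  ((decide (g * (2 * m + 7) + 1 ≤ τ) && decide (τ ≤ g * (2 * m + 7) + 2 * m + 3)) &&
    decide (τ % 2 = (g * (2 * m + 7) + 1) % 2)) ||
  (decide (g * (2 * m + 7) + 2 * m + 4 ≤ τ) && decide (τ % 2 = (g * (2 * m + 7)) % 2))

/-- The leaf of clause `j`, in terms of the gadget and the local time. -/
def cla (m : ℕ) (pos neg : ℕ → ℕ → Bool) (j g r : ℕ) : Bool :=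
  decide (2 * m + 5 ≤ r) ||
  (if pos j g = true then
    (decide (r ≤ 2 * j + 2) && decide (r % 2 = 0)) ||
      (decide (2 * j + 3 ≤ r) && decide (r % 2 = 1))
  else if neg j g = true then
    (decide (r ≤ 2 * j + 3) && decide (r % 2 = 1)) ||
      (decide (2 * j + 4 ≤ r) && decide (r % 2 = 0))
  else decide (r % 2 = 0))

/-- The schedule of a leaf. -/
def pres (m : ℕ) (pos neg : ℕ → ℕ → Bool) (c : Cd) (τ : ℕ) : Bool :=
  if c.1 = 0 then anc m c.2.1 τ else
  if c.1 = 1 then gua m c.2.1 τ else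
  if c.1 = 2 then cla m pos neg c.2.1 (τ / (2 * m + 7)) (τ % (2 * m + 7)) else
  if c.1 = 3 then !decide (τ % (2 * m + 7) = 0) && !decide (τ % (2 * m + 7) = 2 * m + 4) else
  decide (τ % 2 = c.2.1 % 2)

/-- The leaves. -/
def KL (m M : ℕ) : List Cd :=
  (List.range M).map (fun g => (0, g, 0)) ++
  ((List.range M).map (fun g => (1, g, 0)) ++
  ((List.range m).map (fun j => (2, j, 0)) ++
  ((List.range m ×ˢ List.range (M - 1)).map (fun p => (3, p.1, p.2)) ++
  (List.range (M + 1)).map (fun i => (4, i, 0)))))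

theorem mem_KL {m M : ℕ} {c : Cd} : c ∈ KL m M ↔ (∃ g < M, c = (0, g, 0)) ∨
    (∃ g < M, c = (1, g, 0)) ∨ (∃ j < m, c = (2, j, 0)) ∨
    (∃ j < m, ∃ q < M - 1, c = (3, j, q)) ∨ (∃ i < M + 1, c = (4, i, 0)) := by
  unfold KL
  simp only [List.mem_append, List.mem_map, List.mem_range, Prod.exists, List.mem_product]
  constructor
  · rintro (⟨g, h, rfl⟩ | ⟨g, h, rfl⟩ | ⟨g, h, rfl⟩ | ⟨j, q, h, rfl⟩ | ⟨g, h, rfl⟩)
    · exact Or.inl ⟨g, h, rfl⟩
    · exact Or.inr (Or.inl ⟨g, h, rfl⟩)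
    · exact Or.inr (Or.inr (Or.inl ⟨g, h, rfl⟩))
    · exact Or.inr (Or.inr (Or.inr (Or.inl ⟨j, h.1, q, h.2, rfl⟩)))
    · exact Or.inr (Or.inr (Or.inr (Or.inr ⟨g, h, rfl⟩)))
  · rintro (⟨g, h, rfl⟩ | ⟨g, h, rfl⟩ | ⟨g, h, rfl⟩ | ⟨j, h, q, h', rfl⟩ | ⟨g, h, rfl⟩)
    · exact Or.inl ⟨g, h, rfl⟩
    · exact Or.inr (Or.inl ⟨g, h, rfl⟩)
    · exact Or.inr (Or.inr (Or.inl ⟨g, h, rfl⟩))
    · exact Or.inr (Or.inr (Or.inr (Or.inl ⟨j, q, ⟨h, h'⟩, rfl⟩)))
    · exact Or.inr (Or.inr (Or.inr (Or.inr ⟨g, h, rfl⟩)))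

theorem nodup_KL (m M : ℕ) : (KL m M).Nodup := by
  unfold KL
  have hmap : ∀ (k n : ℕ), ((List.range n).map (fun g => ((k, g, 0) : Cd))).Nodup := by
    intro k n
    refine List.Nodup.map ?_ List.nodup_range
    intro a b h
    simpa using h
  refine List.Nodup.append (hmap _ _) (List.Nodup.append (hmap _ _) (List.Nodup.append (hmap _ _)
    (List.Nodup.append ?_ (hmap _ _) ?_) ?_) ?_) ?_
  · refine List.Nodup.map ?_ (List.Nodup.product List.nodup_range List.nodup_range)
    rintro ⟨a, b⟩ ⟨c, d⟩ h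
    simpa using h
  all_goals
    intro c h1 h2
    simp only [List.mem_append, List.mem_map, List.mem_range, Prod.exists, List.mem_product]
      at h1 h2
    grind

/-- The costs. -/
def cost (c : Cd) : ℕ := if c.1 = 4 then 3 else 2

theorem sum_cost {m M : ℕ} (hM : 0 < M) :
    ((KL m M).map cost).sum = M * (2 * m + 7) + 1 + 2 := by
  unfold KL
  simp only [List.map_append, List.sum_append, List.map_map]
  have h1 : ∀ (k : ℕ), k ≠ 4 → (cost ∘ fun g => ((k, g, 0) : Cd)) = fun _ => 2 := by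
    intro k hk
    funext g
    simp [cost, hk]
  have h2 : (cost ∘ fun g => ((4, g, 0) : Cd)) = fun _ => 3 := by
    funext g
    simp [cost]
  have h3 : (cost ∘ fun p : ℕ × ℕ => ((3, p.1, p.2) : Cd)) = fun _ => 2 := by
    funext g
    simp [cost]
  rw [h1 0 (by omega), h1 1 (by omega), h1 2 (by omega), h2, h3]
  obtain ⟨M, rfl⟩ : ∃ N, M = N + 1 := ⟨M - 1, by omega⟩
  simp only [List.map_const', List.sum_replicate, List.length_range, List.length_product,
    smul_eq_mul, Nat.add_sub_cancel]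
  ring

theorem divmod {m g r : ℕ} (hr : r < 2 * m + 7) :
    (g * (2 * m + 7) + r) / (2 * m + 7) = g ∧ (g * (2 * m + 7) + r) % (2 * m + 7) = r := by
  constructor
  · rw [Nat.mul_comm, Nat.mul_add_div (by omega), Nat.div_eq_of_lt hr, Nat.add_zero]
  · rw [Nat.mul_comm, Nat.mul_add_mod, Nat.mod_eq_of_lt hr]

theorem uniq {m g r g' r' : ℕ} (hr : r < 2 * m + 7) (hr' : r' < 2 * m + 7)
    (h : g * (2 * m + 7) + r = g' * (2 * m + 7) + r') : g = g' ∧ r = r' := by
  have h1 := (divmod (m := m) (g := g) hr)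
  have h2 := (divmod (m := m) (g := g') hr')
  rw [h] at h1
  exact ⟨h1.1.symm.trans h2.1, h1.2.symm.trans h2.2⟩

theorem decomp (m τ : ℕ) : ∃ g r, r < 2 * m + 7 ∧ τ = g * (2 * m + 7) + r := by
  refine ⟨τ / (2 * m + 7), τ % (2 * m + 7), Nat.mod_lt _ (by omega), ?_⟩
  rw [Nat.mul_comm]
  exact (Nat.div_add_mod _ _).symm

theorem par (m g : ℕ) : (g * (2 * m + 7)) % 2 = g % 2 := by
  rw [Nat.mul_mod]
  have : (2 * m + 7) % 2 = 1 := by omega
  rw [this]
  omega

section slots

variable {m : ℕ} {pos neg : ℕ → ℕ → Bool}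

theorem slot_anc {g τ : ℕ} (h1 : pres m pos neg (0, g, 0) τ = true)
    (h2 : pres m pos neg (0, g, 0) (τ + 1) = true) : τ = g * (2 * m + 7) + 2 * m + 5 := by
  simp only [pres, if_true, anc, Bool.or_eq_true, Bool.and_eq_true, decide_eq_true_eq] at h1 h2
  omega

theorem slot_gua {g τ : ℕ} (h1 : pres m pos neg (1, g, 0) τ = true)
    (h2 : pres m pos neg (1, g, 0) (τ + 1) = true) :
    τ = g * (2 * m + 7) ∨ τ = g * (2 * m + 7) + 2 * m + 3 := by
  simp only [pres, one_ne_zero, if_false, if_true, gua, Bool.or_eq_true, Bool.and_eq_true,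
    decide_eq_true_eq] at h1 h2
  omega

theorem pres_cla {j g r : ℕ} (hr : r < 2 * m + 7) :
    pres m pos neg (2, j, 0) (g * (2 * m + 7) + r) = cla m pos neg j g r := by
  have := divmod (m := m) (g := g) hr
  simp only [pres, this.1, this.2]
  simp

theorem slot_cla {j g r : ℕ} (_hj : j < m) (hr : r ≤ 2 * m + 3)
    (h1 : pres m pos neg (2, j, 0) (g * (2 * m + 7) + r) = true)
    (h2 : pres m pos neg (2, j, 0) (g * (2 * m + 7) + r + 1) = true) :
    (pos j g = true ∧ r = 2 * j + 2) ∨ (neg j g = true ∧ r = 2 * j + 3) := by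
  rw [pres_cla (by omega)] at h1
  rw [Nat.add_assoc, pres_cla (by omega)] at h2
  unfold cla at h1 h2
  by_cases hp : pos j g = true
  · rw [if_pos hp] at h1 h2
    simp only [Bool.or_eq_true, Bool.and_eq_true, decide_eq_true_eq] at h1 h2
    left
    refine ⟨hp, ?_⟩
    omega
  · rw [if_neg hp] at h1 h2
    by_cases hn : neg j g = true
    · rw [if_pos hn] at h1 h2
      simp only [Bool.or_eq_true, Bool.and_eq_true, decide_eq_true_eq] at h1 h2
      right
      refine ⟨hn, ?_⟩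
      omega
    · rw [if_neg hn] at h1 h2
      simp only [Bool.or_eq_true, decide_eq_true_eq] at h1 h2
      omega

theorem slot_fil {j q g r : ℕ} (hr : r ≤ 2 * m + 3)
    (h1 : pres m pos neg (3, j, q) (g * (2 * m + 7) + r) = true)
    (h2 : pres m pos neg (3, j, q) (g * (2 * m + 7) + r + 1) = true) :
    1 ≤ r ∧ r ≤ 2 * m + 2 := by
  have e1 := divmod (m := m) (g := g) (r := r) (by omega)
  have e2 := divmod (m := m) (g := g) (r := r + 1) (by omega)
  rw [Nat.add_assoc] at h2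
  simp only [pres, e1.2, e2.2] at h1 h2
  simp at h1 h2
  omega

theorem slot_che {i τ : ℕ} (h1 : pres m pos neg (4, i, 0) τ = true)
    (h2 : pres m pos neg (4, i, 0) (τ + 1) = true) : False := by
  simp [pres] at h1 h2
  omega

/-- No edge is absent at two consecutive times. -/
theorem pres_two {M : ℕ} {c : Cd} (hc : c ∈ KL m M) (τ : ℕ) :
    pres m pos neg c τ = true ∨ pres m pos neg c (τ + 1) = true := by
  rw [mem_KL] at hc
  rcases hc with ⟨g, hg, rfl⟩ | ⟨g, hg, rfl⟩ | ⟨j, hj, rfl⟩ | ⟨j, hj, q, hq, rfl⟩ | ⟨i, hi, rfl⟩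
  · simp only [pres, if_true, anc, Bool.or_eq_true, Bool.and_eq_true, decide_eq_true_eq]
    omega
  · simp only [pres, one_ne_zero, if_false, if_true, gua, Bool.or_eq_true, Bool.and_eq_true,
      decide_eq_true_eq]
    omega
  · obtain ⟨g, r, hr, rfl⟩ := decomp m τ
    rw [pres_cla hr]
    rcases Nat.lt_or_ge (r + 1) (2 * m + 7) with h | h
    · rw [Nat.add_assoc, pres_cla h]
      unfold cla
      by_cases hp : pos j g = true
      · rw [if_pos hp, if_pos hp]
        simp only [Bool.or_eq_true, Bool.and_eq_true, decide_eq_true_eq]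
        omega
      · rw [if_neg hp, if_neg hp]
        by_cases hn : neg j g = true
        · rw [if_pos hn, if_pos hn]
          simp only [Bool.or_eq_true, Bool.and_eq_true, decide_eq_true_eq]
          omega
        · rw [if_neg hn, if_neg hn]
          simp only [Bool.or_eq_true, decide_eq_true_eq]
          omega
    · left
      unfold cla
      rw [decide_eq_true (show 2 * m + 5 ≤ r by omega), Bool.true_or]
  · obtain ⟨g, r, hr, rfl⟩ := decomp m τ
    have e1 := divmod (m := m) (g := g) hr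
    rcases Nat.lt_or_ge (r + 1) (2 * m + 7) with h | h
    · have e2 := divmod (m := m) (g := g) h
      rw [Nat.add_assoc]
      simp only [pres, e1.2, e2.2]
      simp
      omega
    · left
      simp only [pres, e1.2]
      simp
      omega
  · simp [pres]
    omega

end slots

end Pool.Agent.Q227.DS
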