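import Pool.Agent.Q227.DS.Defs
import Pool.Agent.NPC.Sat2
import Pool.Agent.Q227.TF.Red
import Pool.Agent.H671R2.PolyAuto

/-!
# The reduction from 3-satisfiability
-/

set_option autoImplicit false

namespace Pool.Agent.Q227.DS

open Pool.Agent.NPC Pool.Agent.Q227.TF

/-- Clause `j` contains the literal `(b, g)`. -/
def occ (φ : F3) (b : Bool) (j g : ℕ) : Bool :=
  φ.zipIdx.any fun q => decide (q.2 = j) &&
    (decide (q.1.1 = (b, g)) || (decide (q.1.2.1 = (b, g)) || decide (q.1.2.2 = (b, g))))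

/-- The reduction. -/
def red (φ : F3) : Inst :=
  inst (KL φ.length (3 * φ.length)) (pres φ.length (occ φ true) (occ φ false))
    (3 * φ.length * (2 * φ.length + 7) + 1)

theorem occ_iff {φ : F3} {b : Bool} {j g : ℕ} : occ φ b j g = true ↔ ∃ c, φ[j]? = some c ∧
    (c.1 = (b, g) ∨ c.2.1 = (b, g) ∨ c.2.2 = (b, g)) := by
  unfold occ
  rw [List.any_eq_true]
  constructor
  · rintro ⟨⟨c, i⟩, hq, h⟩
    rw [List.mem_zipIdx_iff_getElem?] at hq
    simp only [Bool.and_eq_true, Bool.or_eq_true, decide_eq_true_eq] at h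
    obtain ⟨rfl, h⟩ := h
    exact ⟨c, hq, h⟩
  · rintro ⟨c, hc, h⟩
    refine ⟨(c, j), List.mem_zipIdx_iff_getElem?.2 hc, ?_⟩
    simp only [Bool.and_eq_true, Bool.or_eq_true, decide_eq_true_eq]
    exact ⟨trivial, h⟩

theorem red_iff {φ : F3} (hd : Distinct3 φ) (hb : Bounded3 φ) (hne : φ ≠ []) :
    SAT3 φ ↔ Covers (red φ) := by
  have hm : 0 < φ.length := List.length_pos_iff.2 hne
  unfold red
  rw [covers_iff (nodup_KL _ _)]
  constructor
  · rintro ⟨t, ht⟩
    -- choose a true literal in every clause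
    have hex : ∀ j : ℕ, ∃ x, j < φ.length → x < 3 * φ.length ∧ occ φ (t x) j x = true := by
      intro j
      by_cases hj : j < φ.length
      · have hc := List.getElem_mem hj
        have hj2 : φ[j]? = some φ[j] := List.getElem?_eq_getElem hj
        obtain ⟨b1, b2, b3⟩ := hb _ hc
        rcases ht _ hc with h | h | h
        · exact ⟨φ[j].1.2, fun _ => ⟨b1, occ_iff.2 ⟨_, hj2, Or.inl (by rw [h])⟩⟩⟩
        · exact ⟨φ[j].2.1.2, fun _ => ⟨b2, occ_iff.2 ⟨_, hj2, Or.inr (Or.inl (by rw [h]))⟩⟩⟩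
        · exact ⟨φ[j].2.2.2, fun _ => ⟨b3, occ_iff.2 ⟨_, hj2, Or.inr (Or.inr (by rw [h]))⟩⟩⟩
      · exact ⟨0, fun h => absurd h hj⟩
    choose x hx using hex
    refine complete (t := t) (x := x) hm (fun j hj => (hx j hj).1) ?_
    intro j hj
    have h := (hx j hj).2
    rcases htx : t (x j) with _ | _
    · rw [htx] at h
      right
      refine ⟨?_, h, rfl⟩
      -- the positive literal does not occur
      rw [← Bool.not_eq_true]
      intro h'
      rw [occ_iff] at h h'
      obtain ⟨c, hc, h⟩ := h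
      obtain ⟨c', hc', h'⟩ := h'
      rw [hc] at hc'
      obtain rfl := Option.some.inj hc'
      obtain ⟨d1, d2, d3⟩ := hd c (List.mem_of_getElem? hc)
      rcases h with h | h | h <;> rcases h' with h' | h' | h' <;> simp_all
    · rw [htx] at h
      exact Or.inl ⟨h, rfl⟩
  · intro h
    obtain ⟨t, ht⟩ := sound (by omega) h
    refine ⟨t, ?_⟩
    intro c hc
    obtain ⟨j, hj, rfl⟩ := List.mem_iff_getElem.1 hc
    have hj2 : φ[j]? = some φ[j] := List.getElem?_eq_getElem hj
    have key : ∀ b g, occ φ b j g = true → t g = b → (t φ[j].1.2 = φ[j].1.1 ∨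
        t φ[j].2.1.2 = φ[j].2.1.1 ∨ t φ[j].2.2.2 = φ[j].2.2.1) := by
      intro b g ho htg
      rw [occ_iff] at ho
      obtain ⟨c', hc', ho⟩ := ho
      rw [hj2] at hc'
      obtain rfl := Option.some.inj hc'
      rcases ho with ho | ho | ho
      · left
        rw [ho]
        exact htg
      · right; left
        rw [ho]
        exact htg
      · right; right
        rw [ho]
        exact htg
    obtain ⟨g, -, ⟨h1, h2⟩ | ⟨h1, h2⟩⟩ := ht j hj
    · exact key true g h1 h2
    · exact key false g h1 h2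

theorem red_valid (φ : F3) {Δ : ℕ} (hΔ : 2 ≤ Δ) : Valid Δ (red φ) :=
  inst_valid (fun _ hc τ => pres_two hc τ) hΔ

/-! ### Polynomial time -/

theorem lenU : UPoly (fun φ : F3 => φ.length) := UPoly.length NPC.Poly.id

theorem lenM : UPoly (fun φ : F3 => 3 * φ.length) := UPoly.mul (UPoly.const 3) lenU

theorem KL_poly : NPC.Poly (fun φ : F3 => KL φ.length (3 * φ.length)) := by
  have h1 : NPC.Poly (fun φ : F3 => List.range (3 * φ.length)) := lenM.range
  have h2 : NPC.Poly (fun φ : F3 => List.range φ.length) := lenU.range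
  have h3 : NPC.Poly (fun φ : F3 => List.range (3 * φ.length + 1)) :=
    (UPoly.add lenM (UPoly.const 1)).range
  have h4 : NPC.Poly (fun φ : F3 => List.range (3 * φ.length - 1)) :=
    (UPoly.of_le (m := fun φ : F3 => 3 * φ.length - 1) (by fun_prop) lenM
      (fun φ => Nat.sub_le _ _)).range
  unfold KL
  fun_prop

theorem occ_poly (b : Bool) : NPC.Poly (fun p : F3 × ℕ × ℕ => occ p.1 b p.2.1 p.2.2) := by
  unfold occ
  fun_prop

theorem pres_poly : NPC.Poly (fun p : F3 × Cd × ℕ =>
    pres p.1.length (occ p.1 true) (occ p.1 false) p.2.1 p.2.2) := by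
  have h1 := occ_poly true
  have h2 := occ_poly false
  have a1 : NPC.Poly (fun p : F3 × Cd × ℕ => occ p.1 true p.2.1.2.1 (p.2.2 / (2 * p.1.length + 7)))
    := h1.comp (f := fun p : F3 × Cd × ℕ => (p.1, p.2.1.2.1, (p.2.2 / (2 * p.1.length + 7))))
      (by fun_prop)
  have a2 : NPC.Poly (fun p : F3 × Cd × ℕ => occ p.1 false p.2.1.2.1
    (p.2.2 / (2 * p.1.length + 7))) :=
    h2.comp (f := fun p : F3 × Cd × ℕ => (p.1, p.2.1.2.1, (p.2.2 / (2 * p.1.length + 7))))
      (by fun_prop)
  unfold pres anc gua cla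
  fun_prop

theorem red_poly : NPC.Poly red := by
  have h1 := KL_poly
  have h2 := pres_poly
  have h3 : NPC.Poly (fun φ : F3 => List.range (3 * φ.length * (2 * φ.length + 7) + 1)) :=
    (UPoly.add (UPoly.mul lenM (UPoly.add (UPoly.mul (UPoly.const 2) lenU) (UPoly.const 7)))
      (UPoly.const 1)).range
  have h4 : NPC.Poly (fun φ : F3 => mat (KL φ.length (3 * φ.length)) (fun _ => true)) := by
    unfold mat
    refine NPC.Poly.cons (NPC.Poly.cons (NPC.Poly.const _) (NPC.Poly.map h1 (NPC.Poly.const _))) ?_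
    refine NPC.Poly.map h1 (NPC.Poly.cons (NPC.Poly.const _) ?_)
    exact NPC.Poly.map (l := fun p : F3 × Cd => KL p.1.length (3 * p.1.length))
      (h1.comp (f := fun p : F3 × Cd => p.1) (by fun_prop)) (NPC.Poly.const _)
  have h5 : NPC.Poly (fun p : F3 × ℕ => mat (KL p.1.length (3 * p.1.length))
      (fun c => pres p.1.length (occ p.1 true) (occ p.1 false) c p.2)) := by
    have e1 : NPC.Poly (fun p : F3 × ℕ => KL p.1.length (3 * p.1.length)) :=
      h1.comp (f := fun p : F3 × ℕ => p.1) (by fun_prop)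
    have e2 : NPC.Poly (fun p : (F3 × ℕ) × Cd => pres p.1.1.length (occ p.1.1 true)
        (occ p.1.1 false) p.2 p.1.2) :=
      h2.comp (f := fun p : (F3 × ℕ) × Cd => (p.1.1, p.2, p.1.2)) (by fun_prop)
    unfold mat
    refine NPC.Poly.cons (NPC.Poly.cons (NPC.Poly.const _) (NPC.Poly.map e1 e2)) ?_
    refine NPC.Poly.map e1 (NPC.Poly.cons e2 ?_)
    exact NPC.Poly.map (l := fun p : (F3 × ℕ) × Cd => KL p.1.1.length (3 * p.1.1.length))
      (e1.comp (f := fun p : (F3 × ℕ) × Cd => p.1) (by fun_prop)) (NPC.Poly.const _)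
  unfold red inst sched
  fun_prop

end Pool.Agent.Q227.DS
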