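import Pool.Agent.Q227.DS.Pat

/-!
# From a walk to an assignment
-/

set_option autoImplicit false

namespace Pool.Agent.Q227.DS

/-- Walks visiting all the leaves of `K` within `T` steps. -/
def CoverC (K : List Cd) (pr : Cd → ℕ → Bool) (T : ℕ) : Prop :=
  ∃ w : ℕ → Option Cd, w 0 = none ∧ (∀ τ < T, Step pr w τ) ∧ ∀ c ∈ K, ∃ τ ≤ T, w τ = some c

/-- The structure of the walk. -/
structure Tiled (m M : ℕ) (pos neg : ℕ → ℕ → Bool) (w : ℕ → Option Cd) (f : Cd) : Prop where
  w0 : w 0 = none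
  fK : f ∈ KL m M
  f4 : f.1 = 4
  wT : ∀ τ < M * (2 * m + 7) + 1, w τ ≠ some f
  leaf : ∀ c ∈ KL m M, c ≠ f → ∃ s, s + cost c < M * (2 * m + 7) + 1 ∧
    pres m pos neg c s = true ∧ pres m pos neg c (s + cost c - 1) = true ∧
    w s = none ∧ w (s + cost c) = none ∧
    (∀ τ, τ ≤ M * (2 * m + 7) + 1 → (w τ = some c ↔ s < τ ∧ τ < s + cost c))
  nxt : ∀ τ, τ + 1 < M * (2 * m + 7) + 1 → w τ = none →
    ∃ c ∈ KL m M, c ≠ f ∧ w (τ + 1) = some c

theorem tiled {m M : ℕ} (hM : 0 < M) {pos neg : ℕ → ℕ → Bool} {w : ℕ → Option Cd}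
    (h0 : w 0 = none) (hst : ∀ τ < M * (2 * m + 7) + 1, Step (pres m pos neg) w τ)
    (hv : ∀ c ∈ KL m M, ∃ τ ≤ M * (2 * m + 7) + 1, w τ = some c) :
    ∃ f, Tiled m M pos neg w f := by
  have hc : ∀ c ∈ (KL m M).toFinset, Cost (pres m pos neg) cost c := by
    intro c hc
    rw [List.mem_toFinset, mem_KL] at hc
    rcases hc with ⟨g, hg, rfl⟩ | ⟨g, hg, rfl⟩ | ⟨j, hj, rfl⟩ | ⟨j, hj, q, hq, rfl⟩ | ⟨i, hi, rfl⟩
    · exact Or.inl rfl
    · exact Or.inl rfl
    · exact Or.inl rfl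
    · exact Or.inl rfl
    · exact Or.inr ⟨rfl, fun τ h1 h2 => slot_che h1 h2⟩
  have hsum : ∑ c ∈ (KL m M).toFinset, cost c = M * (2 * m + 7) + 1 + 2 := by
    rw [List.sum_toFinset _ (nodup_KL m M), sum_cost hM]
  obtain ⟨f, hf, hf3, hfT, hfno, hleaf, hnxt⟩ := tiling h0 hst
    (fun c hcF => hv c (List.mem_toFinset.1 hcF)) hc hsum
  refine ⟨f, h0, List.mem_toFinset.1 hf, ?_, hfno, fun c hcK hne =>
    hleaf c (List.mem_toFinset.2 hcK) hne, ?_⟩
  · unfold cost at hf3
    by_contra h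
    rw [if_neg h] at hf3
    omega
  · intro τ h1 h2
    obtain ⟨c, hcF, h3, h4⟩ := hnxt τ h1 h2
    exact ⟨c, List.mem_toFinset.1 hcF, h3, h4⟩

variable {m M : ℕ} {pos neg : ℕ → ℕ → Bool} {w : ℕ → Option Cd} {f : Cd}

theorem cost2 {c : Cd} (h : c.1 ≠ 4) : cost c = 2 := by
  unfold cost
  rw [if_neg h]

theorem cost4 {c : Cd} (h : c.1 = 4) : cost c = 3 := by
  unfold cost
  rw [if_pos h]

/-- The start of a visit. -/
theorem start (ht : Tiled m M pos neg w f) {τ : ℕ} (h1 : τ + 1 < M * (2 * m + 7) + 1)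
    (h2 : w τ = none) : ∃ c ∈ KL m M, c ≠ f ∧ τ + cost c < M * (2 * m + 7) + 1 ∧
      pres m pos neg c τ = true ∧ pres m pos neg c (τ + cost c - 1) = true ∧
      w (τ + cost c) = none ∧
      (∀ τ', τ' ≤ M * (2 * m + 7) + 1 → (w τ' = some c ↔ τ < τ' ∧ τ' < τ + cost c)) := by
  obtain ⟨c, hcK, hcf, hw⟩ := ht.nxt τ h1 h2
  obtain ⟨s, h3, h4, h5, h6, h7, h8⟩ := ht.leaf c hcK hcf
  have h9 := (h8 (τ + 1) (by omega)).1 hw
  have h10 : ¬ (s < τ ∧ τ < s + cost c) := by
    intro h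
    rw [(h8 τ (by omega)).2 h] at h2
    exact absurd h2 (by simp)
  have : s = τ := by omega
  subst this
  exact ⟨c, hcK, hcf, h3, h4, h5, h7, h8⟩

theorem start2 (ht : Tiled m M pos neg w f) {τ : ℕ} (h1 : τ + 1 < M * (2 * m + 7) + 1)
    (h2 : w τ = none) : ∃ c ∈ KL m M, c ≠ f ∧
      (∀ τ', τ' ≤ M * (2 * m + 7) + 1 → (w τ' = some c ↔ τ < τ' ∧ τ' < τ + cost c)) ∧
      ((c.1 = 4 ∧ τ + 3 < M * (2 * m + 7) + 1 ∧ w (τ + 3) = none) ∨
      (c.1 ≠ 4 ∧ τ + 2 < M * (2 * m + 7) + 1 ∧ pres m pos neg c τ = true ∧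
        pres m pos neg c (τ + 1) = true ∧ w (τ + 2) = none)) := by
  obtain ⟨c, hcK, hcf, h3, h4, h5, h6, h7⟩ := start ht h1 h2
  refine ⟨c, hcK, hcf, h7, ?_⟩
  by_cases h : c.1 = 4
  · left
    rw [cost4 h] at h3 h6
    exact ⟨h, h3, h6⟩
  · right
    rw [cost2 h] at h3 h5 h6
    exact ⟨h, h3, h4, h5, h6⟩

theorem mul_lt {g M m r : ℕ} (hg : g < M) (hr : r < 2 * m + 7) :
    g * (2 * m + 7) + r < M * (2 * m + 7) := by
  have : (g + 1) * (2 * m + 7) ≤ M * (2 * m + 7) := Nat.mul_le_mul_right _ hg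
  rw [Nat.add_mul, Nat.one_mul] at this
  omega

theorem anchor (ht : Tiled m M pos neg w f) {g : ℕ} (hg : g < M) :
    w (g * (2 * m + 7) + (2 * m + 5)) = none ∧
    w (g * (2 * m + 7) + (2 * m + 6)) = some (0, g, 0) ∧ w ((g + 1) * (2 * m + 7)) = none := by
  have hK : ((0, g, 0) : Cd) ∈ KL m M := mem_KL.2 (Or.inl ⟨g, hg, rfl⟩)
  have hne : ((0, g, 0) : Cd) ≠ f := by
    intro h
    have := ht.f4
    rw [← h] at this
    simp at this
  obtain ⟨s, h3, h4, h5, h6, h7, h8⟩ := ht.leaf _ hK hne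
  rw [cost2 (by simp)] at h3 h5 h7 h8
  have h9 := slot_anc h4 h5
  have hlt := mul_lt (m := m) (r := 2 * m + 6) hg (by omega)
  have e1 : g * (2 * m + 7) + (2 * m + 5) = s := by omega
  have e2 : g * (2 * m + 7) + (2 * m + 6) = s + 1 := by omega
  have e3 : (g + 1) * (2 * m + 7) = s + 2 := by
    rw [Nat.add_mul, Nat.one_mul]
    omega
  rw [e1, e2, e3]
  exact ⟨h6, (h8 (s + 1) (by omega)).2 (by omega), h7⟩

theorem base (ht : Tiled m M pos neg w f) {g : ℕ} (hg : g < M) : w (g * (2 * m + 7)) = none := by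
  rcases g with _ | g
  · rw [Nat.zero_mul]
    exact ht.w0
  · exact (anchor ht (by omega : g < M)).2.2

/-- A cheater starts in every gadget. -/
theorem cheater (ht : Tiled m M pos neg w f) {g : ℕ} (hg : g < M) :
    ∃ c ∈ KL m M, c ≠ f ∧ c.1 = 4 ∧ ∃ r ≤ 2 * m + 2, w (g * (2 * m + 7) + r) = none ∧
      w (g * (2 * m + 7) + r + 1) = some c := by
  by_contra hno
  have key : ∀ k ≤ m + 2, w (g * (2 * m + 7) + 2 * k) = none := by
    intro k
    induction k with
    | zero => intro _; simpa using base ht hg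
    | succ k ih =>
      intro hk
      have h1 := ih (by omega)
      have hlt := mul_lt (m := m) (r := 2 * k) hg (by omega)
      obtain ⟨c, hcK, hcf, h2, ⟨h3, h4, h5⟩ | ⟨h3, h4, h5, h6, h7⟩⟩ := start2 ht (by omega) h1
      · exact absurd ⟨c, hcK, hcf, h3, 2 * k, by omega, h1, (h2 _ (by omega)).2 (by
          rw [cost4 h3]; omega)⟩ hno
      · rw [show g * (2 * m + 7) + 2 * (k + 1) = g * (2 * m + 7) + 2 * k + 2 by ring]
        exact h7
  have h1 := key (m + 2) le_rfl
  have hlt := mul_lt (m := m) (r := 2 * (m + 2)) hg (by omega)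
  obtain ⟨c, hcK, hcf, h2, -⟩ := start2 ht (by omega) h1
  have h3 : w (g * (2 * m + 7) + 2 * (m + 2) + 1) = some c := (h2 _ (by omega)).2 (by
    unfold cost
    split <;> omega)
  rw [show g * (2 * m + 7) + 2 * (m + 2) + 1 = g * (2 * m + 7) + (2 * m + 5) by ring,
    (anchor ht hg).1] at h3
  exact absurd h3 (by simp)

/-- The start of a cheater is determined. -/
theorem start_unique (ht : Tiled m M pos neg w f) {c : Cd} (hcK : c ∈ KL m M) (hcf : c ≠ f)
    {a b : ℕ} (ha : a + 1 < M * (2 * m + 7) + 1) (hb : b + 1 < M * (2 * m + 7) + 1)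
    (h1 : w a = none) (h2 : w (a + 1) = some c) (h3 : w b = none) (h4 : w (b + 1) = some c) :
    a = b := by
  obtain ⟨s, h5, -, -, -, -, h8⟩ := ht.leaf c hcK hcf
  have k1 := (h8 _ (by omega)).1 h2
  have k2 := (h8 _ (by omega)).1 h4
  have k3 : ¬ (s < a ∧ a < s + cost c) := by
    intro h
    rw [(h8 a (by omega)).2 h] at h1
    exact absurd h1 (by simp)
  have k4 : ¬ (s < b ∧ b < s + cost c) := by
    intro h
    rw [(h8 b (by omega)).2 h] at h3
    exact absurd h3 (by simp)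
  omega

/-- Only one cheater starts in a gadget. -/
theorem one_cheater (ht : Tiled m M pos neg w f) {g : ℕ} (hg : g < M) {c c' : Cd}
    (hc : c ∈ KL m M) (hc' : c' ∈ KL m M) (hcf : c ≠ f) (hcf' : c' ≠ f) (h4 : c.1 = 4)
    (h4' : c'.1 = 4) {r r' : ℕ} (hr : r ≤ 2 * m + 2) (hr' : r' ≤ 2 * m + 2)
    (h1 : w (g * (2 * m + 7) + r) = none) (h2 : w (g * (2 * m + 7) + r + 1) = some c)
    (h1' : w (g * (2 * m + 7) + r') = none) (h2' : w (g * (2 * m + 7) + r' + 1) = some c') :
    r = r' ∧ c = c' := by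
  classical
  have hch : ∀ g : ℕ, ∃ c : Cd, g < M → (c ∈ KL m M ∧ c ≠ f ∧ c.1 = 4 ∧ ∃ r ≤ 2 * m + 2,
      w (g * (2 * m + 7) + r) = none ∧ w (g * (2 * m + 7) + r + 1) = some c) := by
    intro g
    by_cases hg : g < M
    · obtain ⟨c, h⟩ := cheater ht hg
      exact ⟨c, fun _ => h⟩
    · exact ⟨f, fun h => absurd h hg⟩
  choose ch hch using hch
  let E : Finset Cd := ((Finset.range (M + 1)).image (fun i => ((4, i, 0) : Cd))).erase f
  have memE : ∀ c : Cd, c ∈ KL m M → c ≠ f → c.1 = 4 → c ∈ E := by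
    intro c hcK hcf hc4
    rw [Finset.mem_erase, Finset.mem_image]
    refine ⟨hcf, ?_⟩
    rw [mem_KL] at hcK
    rcases hcK with ⟨g, hg, rfl⟩ | ⟨g, hg, rfl⟩ | ⟨j, hj, rfl⟩ | ⟨j, hj, q, hq, rfl⟩ | ⟨i, hi, rfl⟩
    · simp at hc4
    · simp at hc4
    · simp at hc4
    · simp at hc4
    · exact ⟨i, Finset.mem_range.2 hi, rfl⟩
  have hfE : f ∈ (Finset.range (M + 1)).image (fun i => ((4, i, 0) : Cd)) := by
    have hfK := ht.fK
    have hf4 := ht.f4
    rw [Finset.mem_image]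
    rw [mem_KL] at hfK
    rcases hfK with ⟨g, hg, rfl⟩ | ⟨g, hg, rfl⟩ | ⟨j, hj, rfl⟩ | ⟨j, hj, q, hq, rfl⟩ | ⟨i, hi, rfl⟩
    · simp at hf4
    · simp at hf4
    · simp at hf4
    · simp at hf4
    · exact ⟨i, Finset.mem_range.2 hi, rfl⟩
  have hcardE : E.card = M := by
    rw [Finset.card_erase_of_mem hfE, Finset.card_image_of_injective, Finset.card_range]
    · rfl
    · intro a b h
      simpa using h
  have hinj : Set.InjOn ch (Finset.range M : Finset ℕ) := by
    intro a ha b hb hab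
    rw [Finset.mem_coe, Finset.mem_range] at ha hb
    obtain ⟨k1, k2, k3, ra, k4, k5, k6⟩ := hch a ha
    obtain ⟨l1, l2, l3, rb, l4, l5, l6⟩ := hch b hb
    rw [← hab] at l6
    have hlt := mul_lt (m := m) (r := ra) ha (by omega)
    have hlt' := mul_lt (m := m) (r := rb) hb (by omega)
    have := start_unique ht k1 k2 (by omega) (by omega) k5 k6 l5 l6
    exact (uniq (by omega) (by omega) this).1
  have himg : (Finset.range M).image ch = E := by
    refine Finset.eq_of_subset_of_card_le ?_ ?_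
    · intro c hc
      rw [Finset.mem_image] at hc
      obtain ⟨g, hg, rfl⟩ := hc
      obtain ⟨k1, k2, k3, -⟩ := hch g (Finset.mem_range.1 hg)
      exact memE _ k1 k2 k3
    · rw [Finset.card_image_of_injOn hinj, Finset.card_range, hcardE]
  have hfind : ∀ (c : Cd) (r : ℕ), c ∈ KL m M → c ≠ f → c.1 = 4 → r ≤ 2 * m + 2 →
      w (g * (2 * m + 7) + r) = none → w (g * (2 * m + 7) + r + 1) = some c → c = ch g := by
    intro c r hcK hcf hc4 hr k5 k6
    have h := memE c hcK hcf hc4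
    rw [← himg, Finset.mem_image] at h
    obtain ⟨g', hg', rfl⟩ := h
    rw [Finset.mem_range] at hg'
    obtain ⟨l1, l2, l3, rb, l4, l5, l6⟩ := hch g' hg'
    have hlt := mul_lt (m := m) (r := r) hg (by omega)
    have hlt' := mul_lt (m := m) (r := rb) hg' (by omega)
    have := start_unique ht l1 l2 (by omega) (by omega) k5 k6 l5 l6
    rw [(uniq (by omega) (by omega) this).1]
  have e1 := hfind c r hc hcf h4 hr h1 h2
  have e2 := hfind c' r' hc' hcf' h4' hr' h1' h2'
  refine ⟨?_, e1.trans e2.symm⟩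
  rw [e2, ← e1] at h2'
  have hlt := mul_lt (m := m) (r := r) hg (by omega)
  have hlt' := mul_lt (m := m) (r := r') hg (by omega)
  have := start_unique ht hc hcf (by omega) (by omega) h1 h2 h1' h2'
  exact (uniq (by omega) (by omega) this).2

/-- After a cheater all further starts have the other parity. -/
theorem odd_run (ht : Tiled m M pos neg w f) {g : ℕ} (hg : g < M) {c : Cd} (hc : c ∈ KL m M)
    (hcf : c ≠ f) (h4 : c.1 = 4) {r : ℕ} (hr : r ≤ 2 * m + 2)
    (h1 : w (g * (2 * m + 7) + r) = none) (h2 : w (g * (2 * m + 7) + r + 1) = some c)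
    (h3 : w (g * (2 * m + 7) + (r + 3)) = none) :
    ∀ i, r + 3 + 2 * i ≤ 2 * m + 5 → w (g * (2 * m + 7) + (r + 3 + 2 * i)) = none := by
  intro i
  induction i with
  | zero => intro _; simpa using h3
  | succ i ih =>
    intro hi
    have k1 := ih (by omega)
    have hlt := mul_lt (m := m) (r := r + 3 + 2 * i) hg (by omega)
    obtain ⟨c', hcK, hcf', l2, ⟨l3, l4, l5⟩ | ⟨l3, l4, l5, l6, l7⟩⟩ := start2 ht (by omega) k1
    · exfalso
      rw [cost4 l3] at l2
      rcases Nat.lt_or_ge (r + 3 + 2 * i) (2 * m + 3) with h | h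
      · have := one_cheater ht hg hc hcK hcf hcf' h4 l3 hr (by omega : r + 3 + 2 * i ≤ 2 * m + 2)
          h1 h2 k1 ((l2 _ (by omega)).2 (by omega))
        omega
      · have k2 : w (g * (2 * m + 7) + (2 * m + 5)) = some c' := (l2 _ (by
          have := mul_lt (m := m) (r := 2 * m + 5) hg (by omega)
          omega)).2 (by omega)
        rw [(anchor ht hg).1] at k2
        exact absurd k2 (by simp)
    · rw [show g * (2 * m + 7) + (r + 3 + 2 * (i + 1)) = g * (2 * m + 7) + (r + 3 + 2 * i) + 2 by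
        ring]
      exact l7

/-- What can start at local time `0` or `2m+3` in two steps: only the guard. -/
theorem only_guard {g r : ℕ} (hr : r = 0 ∨ r = 2 * m + 3) {c : Cd} (hc : c ∈ KL m M)
    (h4 : c.1 ≠ 4) (h1 : pres m pos neg c (g * (2 * m + 7) + r) = true)
    (h2 : pres m pos neg c (g * (2 * m + 7) + r + 1) = true) : c = (1, g, 0) := by
  rw [mem_KL] at hc
  rcases hc with ⟨g', hg, rfl⟩ | ⟨g', hg, rfl⟩ | ⟨j, hj, rfl⟩ | ⟨j, hj, q, hq, rfl⟩ | ⟨i, hi, rfl⟩
  · exfalso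
    have h := slot_anc h1 h2
    rw [Nat.add_assoc] at h
    have := uniq (by omega) (by omega) h
    omega
  · rcases slot_gua h1 h2 with h | h
    · have h' : g * (2 * m + 7) + r = g' * (2 * m + 7) + 0 := by omega
      rw [(uniq (by omega) (by omega) h').1]
    · rw [Nat.add_assoc] at h
      rw [(uniq (by omega) (by omega) h).1]
  · exfalso
    have := slot_cla hj (by omega) h1 h2
    omega
  · exfalso
    have := slot_fil (by omega) h1 h2
    omega
  · exact absurd rfl h4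

/-- The two modes of a gadget. -/
theorem mode (ht : Tiled m M pos neg w f) {g : ℕ} (hg : g < M) :
    (w (g * (2 * m + 7) + 1) = some (1, g, 0) ∧
      ∀ k ≤ m + 1, w (g * (2 * m + 7) + 2 * k) = none) ∨
    (w (g * (2 * m + 7) + 1) ≠ some (1, g, 0) ∧
      ∀ k ≤ m + 1, w (g * (2 * m + 7) + (3 + 2 * k)) = none) := by
  have h1 := base ht hg
  have hlt := mul_lt (m := m) (r := 0) hg (by omega)
  obtain ⟨c, hcK, hcf, l2, ⟨l3, l4, l5⟩ | ⟨l3, l4, l5, l6, l7⟩⟩ := start2 ht (by omega) h1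
  · right
    rw [cost4 l3] at l2
    have l8 : w (g * (2 * m + 7) + 1) = some c := (l2 _ (by omega)).2 (by omega)
    constructor
    · rw [l8]
      intro h
      rw [Option.some.inj h] at l3
      simp at l3
    · intro k hk
      have := odd_run ht hg hcK hcf l3 (r := 0) (by omega) (by simpa using h1) (by simpa using l8)
        (by simpa using l5) k (by omega)
      simpa using this
  · left
    rw [cost2 l3] at l2
    have hcg : c = (1, g, 0) := only_guard (r := 0) (Or.inl rfl) hcK l3 (by simpa using l5)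
      (by simpa using l6)
    subst hcg
    refine ⟨(l2 _ (by omega)).2 (by omega), ?_⟩
    intro k
    induction k with
    | zero => intro _; simpa using h1
    | succ k ih =>
      intro hk
      have k1 := ih (by omega)
      have hlt := mul_lt (m := m) (r := 2 * k) hg (by omega)
      obtain ⟨c', hcK', hcf', n2, ⟨n3, n4, n5⟩ | ⟨n3, n4, n5, n6, n7⟩⟩ := start2 ht (by omega) k1
      · exfalso
        rw [cost4 n3] at n2
        have k2 := odd_run ht hg hcK' hcf' n3 (r := 2 * k) (by omega) k1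
          ((n2 _ (by omega)).2 (by omega)) (by rw [← Nat.add_assoc]; exact n5) (m - k) (by omega)
        rw [show 2 * k + 3 + 2 * (m - k) = 2 * m + 3 by omega] at k2
        have hlt3 := mul_lt (m := m) (r := 2 * m + 5) hg (by omega)
        obtain ⟨d, hdK, hdf, o2, ⟨o3, o4, o5⟩ | ⟨o3, o4, o5, o6, o7⟩⟩ :=
          start2 ht (by omega) k2
        · rw [cost4 o3] at o2
          have k3 : w (g * (2 * m + 7) + (2 * m + 5)) = some d := (o2 _ (by omega)).2 (by omega)
          rw [(anchor ht hg).1] at k3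
          exact absurd k3 (by simp)
        · have k3 := only_guard (Or.inr rfl) hdK o3 o5 o6
          subst k3
          rw [cost2 o3] at o2
          have k4 := (o2 (g * (2 * m + 7) + 1) (by omega)).1 ((l2 _ (by omega)).2 (by omega))
          omega
      · rw [show g * (2 * m + 7) + 2 * (k + 1) = g * (2 * m + 7) + 2 * k + 2 by ring]
        exact n7

theorem sound (hM : 0 < M) (h : CoverC (KL m M) (pres m pos neg) (M * (2 * m + 7) + 1)) :
    ∃ t : ℕ → Bool, ∀ j < m, ∃ g < M, (pos j g = true ∧ t g = true) ∨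
      (neg j g = true ∧ t g = false) := by
  classical
  obtain ⟨w, h0, hst, hv⟩ := h
  obtain ⟨f, ht⟩ := tiled hM h0 hst hv
  refine ⟨fun g => decide (w (g * (2 * m + 7) + 1) = some (1, g, 0)), ?_⟩
  intro j hj
  have hK : ((2, j, 0) : Cd) ∈ KL m M := mem_KL.2 (Or.inr (Or.inr (Or.inl ⟨j, hj, rfl⟩)))
  have hne : ((2, j, 0) : Cd) ≠ f := by
    intro h
    have := ht.f4
    rw [← h] at this
    simp at this
  obtain ⟨s, h3, h4, h5, h6, h7, h8⟩ := ht.leaf _ hK hne
  rw [cost2 (by simp)] at h3 h5 h7 h8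
  have h9 : w (s + 1) = some (2, j, 0) := (h8 _ (by omega)).2 (by omega)
  obtain ⟨g, r, hr, rfl⟩ := decomp m s
  have hg : g < M := by
    by_contra hge
    have : M * (2 * m + 7) ≤ g * (2 * m + 7) := Nat.mul_le_mul_right _ (by omega)
    omega
  obtain ⟨a1, a2, a3⟩ := anchor ht hg
  have hr3 : r ≤ 2 * m + 3 := by
    by_contra hge
    have : r = 2 * m + 4 ∨ r = 2 * m + 5 ∨ r = 2 * m + 6 := by omega
    rcases this with rfl | rfl | rfl
    · rw [show g * (2 * m + 7) + (2 * m + 4) + 1 = g * (2 * m + 7) + (2 * m + 5) by ring, a1] at h9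
      exact absurd h9 (by simp)
    · rw [show g * (2 * m + 7) + (2 * m + 5) + 1 = g * (2 * m + 7) + (2 * m + 6) by ring, a2] at h9
      exact absurd h9 (by simp)
    · rw [a2] at h6
      exact absurd h6 (by simp)
  refine ⟨g, hg, ?_⟩
  rcases slot_cla hj hr3 h4 h5 with ⟨hp, rfl⟩ | ⟨hn, rfl⟩
  · left
    refine ⟨hp, ?_⟩
    rcases mode ht hg with ⟨hm, -⟩ | ⟨-, hm⟩
    · exact decide_eq_true hm
    · exfalso
      have := hm j (by omega)
      rw [show g * (2 * m + 7) + (3 + 2 * j) = g * (2 * m + 7) + (2 * j + 2) + 1 by ring, h9]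
        at this
      exact absurd this (by simp)
  · right
    refine ⟨hn, ?_⟩
    rcases mode ht hg with ⟨-, hm⟩ | ⟨hm, -⟩
    · exfalso
      have := hm (j + 2) (by omega)
      rw [show g * (2 * m + 7) + 2 * (j + 2) = g * (2 * m + 7) + (2 * j + 3) + 1 by ring, h9]
        at this
      exact absurd this (by simp)
    · exact decide_eq_false hm

end Pool.Agent.Q227.DS
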