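import Mathlib

/-!
# Exact covers of time by visits of the leaves of a star

`pres c τ` says that the edge to the leaf `c` is available at time `τ`; a walk is a function from
times to `Option C`, the value `none` being the centre.
-/

set_option autoImplicit false

namespace Pool.Agent.Q227.DS

variable {C : Type}

/-- A step of the agent at time `τ`. -/
def Step (pres : C → ℕ → Bool) (w : ℕ → Option C) (τ : ℕ) : Prop :=
  w (τ + 1) = w τ ∨ (∃ c, w τ = none ∧ w (τ + 1) = some c ∧ pres c τ = true) ∨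
    (∃ c, w τ = some c ∧ w (τ + 1) = none ∧ pres c τ = true)

theorem step_leaf {pres : C → ℕ → Bool} {w : ℕ → Option C} {τ : ℕ} (h : Step pres w τ) {c : C}
    (hc : w (τ + 1) = some c) : w τ = some c ∨ (w τ = none ∧ pres c τ = true) := by
  rcases h with h | ⟨d, h1, h2, h3⟩ | ⟨d, h1, h2, h3⟩
  · exact Or.inl (h ▸ hc)
  · rw [hc] at h2
    obtain rfl := Option.some.inj h2
    exact Or.inr ⟨h1, h3⟩
  · rw [hc] at h2
    exact absurd h2 (by simp)

theorem step_leave {pres : C → ℕ → Bool} {w : ℕ → Option C} {τ : ℕ} (h : Step pres w τ) {c : C}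
    (hc : w τ = some c) : w (τ + 1) = some c ∨ (w (τ + 1) = none ∧ pres c τ = true) := by
  rcases h with h | ⟨d, h1, h2, h3⟩ | ⟨d, h1, h2, h3⟩
  · exact Or.inl (h.trans hc)
  · rw [hc] at h1
    exact absurd h1 (by simp)
  · rw [hc] at h1
    obtain rfl := Option.some.inj h1
    exact Or.inr ⟨h2, h3⟩

open Classical in
/-- The steps spent on the leaf `c`. -/
noncomputable def S (w : ℕ → Option C) (T : ℕ) (c : C) : Finset ℕ :=
  (Finset.range T).filter fun τ => w τ = some c ∨ w (τ + 1) = some c

open Classical in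
theorem mem_S {w : ℕ → Option C} {T : ℕ} {c : C} {τ : ℕ} :
    τ ∈ S w T c ↔ τ < T ∧ (w τ = some c ∨ w (τ + 1) = some c) := by
  unfold S
  rw [Finset.mem_filter, Finset.mem_range]

theorem disj_S {pres : C → ℕ → Bool} {w : ℕ → Option C} {T : ℕ}
    (hst : ∀ τ < T, Step pres w τ) {c d : C} (hcd : c ≠ d) : Disjoint (S w T c) (S w T d) := by
  rw [Finset.disjoint_left]
  intro τ h1 h2
  rw [mem_S] at h1 h2
  have hs := hst τ h1.1
  rcases h1.2 with h1' | h1' <;> rcases h2.2 with h2' | h2'
  · exact hcd (Option.some.inj (h1'.symm.trans h2'))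
  · rcases step_leaf hs h2' with h | ⟨h, -⟩
    · exact hcd (Option.some.inj (h1'.symm.trans h))
    · rw [h1'] at h
      exact absurd h (by simp)
  · rcases step_leaf hs h1' with h | ⟨h, -⟩
    · exact hcd (Option.some.inj (h.symm.trans h2'))
    · rw [h2'] at h
      exact absurd h (by simp)
  · exact hcd (Option.some.inj (h1'.symm.trans h2'))

/-- The first visit of `c`, and what follows it. -/
theorem visit {pres : C → ℕ → Bool} {w : ℕ → Option C} {T : ℕ} (h0 : w 0 = none)
    (hst : ∀ τ < T, Step pres w τ) {c : C} (hv : ∃ τ ≤ T, w τ = some c) :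
    ∃ s, s < T ∧ w s = none ∧ pres c s = true ∧ s ∈ S w T c ∧
      ((∃ e, s + 2 ≤ e ∧ e ≤ T ∧ w e = none ∧ pres c (e - 1) = true ∧
        (∀ τ, s < τ → τ < e → w τ = some c) ∧ Finset.Ico s e ⊆ S w T c) ∨
      (w T = some c ∧ (∀ τ, s < τ → τ ≤ T → w τ = some c) ∧ Finset.Ico s T ⊆ S w T c)) := by
  classical
  obtain ⟨a, ha⟩ : ∃ a, a = Nat.find hv := ⟨_, rfl⟩
  have ha1 := Nat.find_spec hv
  rw [← ha] at ha1
  have ha2 : ∀ τ < a, w τ ≠ some c := by
    intro τ hτ h
    rw [ha] at hτ
    exact Nat.find_min hv hτ ⟨by rw [← ha] at hτ; omega, h⟩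
  rcases a with _ | s
  · rw [h0] at ha1
    exact absurd ha1.2 (by simp)
  obtain ⟨hs1, hs2⟩ := ha1
  have hs3 := step_leaf (hst s (by omega)) hs2
  rcases hs3 with hs3 | ⟨hs3, hs4⟩
  · exact absurd hs3 (ha2 s (by omega))
  refine ⟨s, by omega, hs3, hs4, mem_S.2 ⟨by omega, Or.inr hs2⟩, ?_⟩
  by_cases hex : ∃ e, s < e ∧ e ≤ T ∧ w e ≠ some c
  · left
    obtain ⟨e, he⟩ : ∃ e, e = Nat.find hex := ⟨_, rfl⟩
    have he1 := Nat.find_spec hex
    rw [← he] at he1
    have he2 : ∀ τ, s < τ → τ < e → w τ = some c := by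
      intro τ h1 h2
      by_contra h
      have h3 := h2
      rw [he] at h3
      exact Nat.find_min hex h3 ⟨h1, by omega, h⟩
    have he3 : s + 2 ≤ e := by
      by_contra hlt
      have : e = s + 1 := by omega
      rw [this] at he1
      exact he1.2.2 hs2
    have he4 : w (e - 1) = some c := he2 (e - 1) (by omega) (by omega)
    have he5 : e - 1 + 1 = e := by omega
    have he6 := step_leave (hst (e - 1) (by omega)) he4
    rw [he5] at he6
    rcases he6 with he6 | ⟨he6, he7⟩
    · exact absurd he6 he1.2.2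
    · refine ⟨e, he3, he1.2.1, he6, he7, he2, ?_⟩
      intro τ hτ
      rw [Finset.mem_Ico] at hτ
      rw [mem_S]
      refine ⟨by omega, ?_⟩
      rcases Nat.eq_or_lt_of_le hτ.1 with h | h
      · subst h
        exact Or.inr hs2
      · exact Or.inl (he2 τ h hτ.2)
  · right
    push Not at hex
    refine ⟨hex T (by omega) le_rfl, hex, ?_⟩
    intro τ hτ
    rw [Finset.mem_Ico] at hτ
    rw [mem_S]
    refine ⟨by omega, ?_⟩
    rcases Nat.eq_or_lt_of_le hτ.1 with h | h
    · subst h
      exact Or.inr hs2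
    · exact Or.inl (hex τ h (by omega))

/-- A leaf with cost two, or with cost three (never available at two consecutive times). -/
def Cost (pres : C → ℕ → Bool) (cost : C → ℕ) (c : C) : Prop :=
  cost c = 2 ∨ (cost c = 3 ∧ ∀ τ, pres c τ = true → pres c (τ + 1) = true → False)

theorem cost_le {pres : C → ℕ → Bool} {w : ℕ → Option C} {T : ℕ} (h0 : w 0 = none)
    (hst : ∀ τ < T, Step pres w τ) {c : C} (hv : ∃ τ ≤ T, w τ = some c) {cost : C → ℕ}
    (hc : Cost pres cost c) (hT : w T ≠ some c) : cost c ≤ (S w T c).card := by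
  obtain ⟨s, hs, h1, h2, h3, ⟨e, h4, h5, h6, h7, h8, h9⟩ | ⟨h4, -, -⟩⟩ := visit h0 hst hv
  · have h10 := Finset.card_le_card h9
    rw [Nat.card_Ico] at h10
    rcases hc with hc | ⟨hc, hc2⟩
    · omega
    · have : e ≠ s + 2 := by
        rintro rfl
        exact hc2 s h2 (by simpa using h7)
      omega
  · exact absurd h4 hT

/-- If the total cost is the available time plus two, the visits tile the time exactly. -/
theorem tiling [DecidableEq C] {pres : C → ℕ → Bool} {w : ℕ → Option C} {T : ℕ} (h0 : w 0 = none)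
    (hst : ∀ τ < T, Step pres w τ) {F : Finset C} (hv : ∀ c ∈ F, ∃ τ ≤ T, w τ = some c)
    {cost : C → ℕ} (hc : ∀ c ∈ F, Cost pres cost c) (hsum : ∑ c ∈ F, cost c = T + 2) :
    ∃ f ∈ F, cost f = 3 ∧ w T = some f ∧ (∀ τ < T, w τ ≠ some f) ∧
      (∀ c ∈ F, c ≠ f → ∃ s, s + cost c < T ∧ pres c s = true ∧ pres c (s + cost c - 1) = true ∧
        w s = none ∧ w (s + cost c) = none ∧ (∀ τ, τ ≤ T → (w τ = some c ↔ s < τ ∧ τ < s + cost c)))
      ∧ ∀ τ, τ + 1 < T → w τ = none → ∃ c ∈ F, c ≠ f ∧ w (τ + 1) = some c := by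
  have hle : ∑ c ∈ F, (S w T c).card ≤ T := by
    rw [← Finset.card_biUnion (fun c _ d _ hcd => disj_S hst hcd)]
    calc _ ≤ (Finset.range T).card := Finset.card_le_card (by
            intro τ hτ
            rw [Finset.mem_biUnion] at hτ
            obtain ⟨c, -, hτ⟩ := hτ
            exact Finset.mem_range.2 (mem_S.1 hτ).1)
      _ = T := Finset.card_range T
  have hcostle : ∀ c ∈ F, w T ≠ some c → cost c ≤ (S w T c).card := fun c hcF hne =>
    cost_le h0 hst (hv c hcF) (hc c hcF) hne
  have hex : ∃ f ∈ F, w T = some f := by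
    by_contra hno
    push Not at hno
    have : ∑ c ∈ F, cost c ≤ ∑ c ∈ F, (S w T c).card :=
      Finset.sum_le_sum fun c hcF => hcostle c hcF (hno c hcF)
    omega
  obtain ⟨f, hfF, hf⟩ := hex
  have hne : ∀ c, c ≠ f → w T ≠ some c := by
    intro c hcf h
    exact hcf (Option.some.inj (h.symm.trans hf))
  have hf1 : 1 ≤ (S w T f).card := by
    obtain ⟨s, -, -, -, h3, -⟩ := visit h0 hst (hv f hfF)
    exact Finset.card_pos.2 ⟨s, h3⟩
  have e1 := Finset.sum_erase_add F cost hfF
  have e2 := Finset.sum_erase_add F (fun c => (S w T c).card) hfF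
  have e3 : ∑ c ∈ F.erase f, cost c ≤ ∑ c ∈ F.erase f, (S w T c).card :=
    Finset.sum_le_sum fun c hcF => hcostle c (Finset.mem_of_mem_erase hcF)
      (hne c (Finset.ne_of_mem_erase hcF))
  have hf3 : cost f = 3 := by
    rcases hc f hfF with h | h
    · omega
    · exact h.1
  have hf4 : (S w T f).card = 1 := by omega
  have e4 : ∑ c ∈ F.erase f, cost c = ∑ c ∈ F.erase f, (S w T c).card := by omega
  have e5 : ∀ c ∈ F.erase f, cost c = (S w T c).card :=
    (Finset.sum_eq_sum_iff_of_le fun c hcF => hcostle c (Finset.mem_of_mem_erase hcF)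
      (hne c (Finset.ne_of_mem_erase hcF))).1 e4
  -- every step belongs to a leaf
  have e6 : ∀ τ < T, ∃ c ∈ F, τ ∈ S w T c := by
    have hcard : (F.biUnion (S w T)).card = T := by
      rw [Finset.card_biUnion (fun c _ d _ hcd => disj_S hst hcd)]
      omega
    have hsub : F.biUnion (S w T) ⊆ Finset.range T := by
      intro τ hτ
      rw [Finset.mem_biUnion] at hτ
      obtain ⟨c, -, hτ⟩ := hτ
      exact Finset.mem_range.2 (mem_S.1 hτ).1
    have heq := Finset.eq_of_subset_of_card_le hsub (by rw [hcard, Finset.card_range])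
    intro τ hτ
    have : τ ∈ F.biUnion (S w T) := by rw [heq]; exact Finset.mem_range.2 hτ
    rw [Finset.mem_biUnion] at this
    exact this
  have hT : 0 < T := by
    by_contra h
    have : T = 0 := by omega
    rw [this, h0] at hf
    exact absurd hf (by simp)
  have hfS : S w T f = {T - 1} := by
    have h1 : T - 1 ∈ S w T f := mem_S.2 ⟨by omega, Or.inr (by
      rw [show T - 1 + 1 = T by omega]; exact hf)⟩
    rw [Finset.card_eq_one] at hf4
    obtain ⟨x, hx⟩ := hf4
    rw [hx] at h1 ⊢
    rw [Finset.mem_singleton] at h1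
    rw [h1]
  have hfno : ∀ τ < T, w τ ≠ some f := by
    intro τ hτ h
    have h1 : τ ∈ S w T f := mem_S.2 ⟨hτ, Or.inl h⟩
    rw [hfS, Finset.mem_singleton] at h1
    rcases τ with _ | τ
    · rw [h0] at h
      exact absurd h (by simp)
    · have h2 : τ ∈ S w T f := mem_S.2 ⟨by omega, Or.inr h⟩
      rw [hfS, Finset.mem_singleton] at h2
      omega
  refine ⟨f, hfF, hf3, hf, hfno, ?_, ?_⟩
  · intro c hcF hcf
    have hc3 := e5 c (Finset.mem_erase.2 ⟨hcf, hcF⟩)
    obtain ⟨s, hs, h1, h2, h3, ⟨e, h4, h5, h6, h7, h8, h9⟩ | ⟨h4, -, -⟩⟩ := visit h0 hst (hv c hcF)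
    · have h10 := Finset.card_le_card h9
      rw [Nat.card_Ico] at h10
      have h11 : e = s + cost c := by
        rcases hc c hcF with hc' | ⟨hc', hc2⟩
        · omega
        · have : e ≠ s + 2 := by
            rintro rfl
            exact hc2 s h2 (by simpa using h7)
          omega
      have h12 : Finset.Ico s e = S w T c :=
        Finset.eq_of_subset_of_card_le h9 (by rw [Nat.card_Ico]; omega)
      have h13 : e < T := by
        rcases Nat.eq_or_lt_of_le h5 with h | h
        · exfalso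
          rw [h, hf] at h6
          exact absurd h6 (by simp)
        · exact h
      subst h11
      refine ⟨s, h13, h2, h7, h1, h6, ?_⟩
      intro τ hτ
      constructor
      · intro h
        rcases Nat.eq_or_lt_of_le hτ with hT' | hT'
        · exfalso
          rw [hT'] at h
          exact hne c hcf h
        · have h14 : τ ∈ S w T c := mem_S.2 ⟨hT', Or.inl h⟩
          rw [← h12, Finset.mem_Ico] at h14
          refine ⟨?_, h14.2⟩
          rcases Nat.eq_or_lt_of_le h14.1 with h15 | h15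
          · exfalso
            rw [← h15, h1] at h
            exact absurd h (by simp)
          · exact h15
      · rintro ⟨h14, h15⟩
        exact h8 τ h14 h15
    · exact absurd h4 (hne c hcf)
  · intro τ hτ hw
    obtain ⟨c, hcF, hcS⟩ := e6 τ (by omega)
    rw [mem_S] at hcS
    rcases hcS.2 with h | h
    · rw [hw] at h
      exact absurd h (by simp)
    · refine ⟨c, hcF, ?_, h⟩
      rintro rfl
      exact hfno _ hτ h

end Pool.Agent.Q227.DS
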